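import Pool.Agent.Q126.TD.Full

/-!
Almost all integer polynomials `f`: the composition `f(g)` with a given cubic polynomial is irreducible.
-/

set_option autoImplicit false

open Polynomial Pool.Agent.TH115.GD

namespace Pool.Agent.Q126.TD

section

variable {κ : Type} [Fintype κ] {k : Type} [Field k] [CharZero k]

/-- **Almost all compositions with a cubic polynomial are irreducible.** -/
theorem comp_full (hk : FG k) {N : ℕ} (hN : 0 < N) {Q : (κ → ℤ) → ℤ[X]}
    (hQ : Equidistributed N Q) {g : ℤ[X]} (hg : g.Monic) (hg3 : g.natDegree = 3)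
    (hab : g.coeff 2 ^ 2 ≠ 3 * g.coeff 1) :
    Full {v | Irreducible (((Q v).map (Int.castRingHom k)).comp (g.map (Int.castRingHom k))) ∧
      ((Q v).map (Int.castRingHom k)).natDegree = N} := by
  refine full_of_primes _ (1 / (24 * N : ℝ)) (by positivity) ?_
  have hinf : {p : ℕ | ((g.coeff 2 ^ 2 - 3 * g.coeff 1 : ℤ) : ZMod p) ≠ 0 ∧ 11 ≤ p ∧
      ∃ _ : Fact p.Prime, Nonempty (k →+* ℚ_[p])}.Infinite := by
    have h0 : g.coeff 2 ^ 2 - 3 * g.coeff 1 ≠ 0 := sub_ne_zero.2 hab
    have h1 := (primes_infinite hk).sdiff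
      (Set.finite_le_nat ((g.coeff 2 ^ 2 - 3 * g.coeff 1).natAbs))
    apply h1.mono
    rintro p ⟨h2, h3⟩
    refine ⟨?_, h2⟩
    intro h4
    rw [ZMod.intCast_zmod_eq_zero_iff_dvd] at h4
    apply h3
    exact Nat.le_of_dvd (Int.natAbs_pos.2 h0) (Int.natCast_dvd.1 h4)
  apply hinf.mono
  rintro p ⟨hgp, hp, hpp, ⟨φ⟩⟩
  obtain ⟨q, hq, hred⟩ := hQ.2 p hpp.out hp
  have hgm : (g.map (Int.castRingHom (ZMod p))).Monic := hg.map _
  have hgd : (g.map (Int.castRingHom (ZMod p))).natDegree = 3 := by
    rw [hg.natDegree_map, hg3]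
  have hgab : (g.map (Int.castRingHom (ZMod p))).coeff 2 ^ 2 ≠
      3 * (g.map (Int.castRingHom (ZMod p))).coeff 1 := by
    rw [coeff_map, coeff_map]
    intro h
    apply hgp
    push_cast
    exact sub_eq_zero.2 h
  refine ⟨hpp.out, _, hq.count (count_irr_vec hp hgm hgd hgab hN), ?_⟩
  intro v hv
  obtain ⟨h1, -, h2⟩ := hv
  rw [← hred] at h1 h2
  have h3 := degree_of_red (hQ.1 v) h1
  have hgZ : (g.map (Int.castRingHom ℤ_[p])).natDegree = 3 := by
    rw [hg.natDegree_map, hg3]
  have h4 := irr_of_red (f := ((Q v).map (Int.castRingHom ℤ_[p])).comp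
    (g.map (Int.castRingHom ℤ_[p]))) (by
      rw [Polynomial.map_comp, map_toZMod, map_toZMod, natDegree_comp, natDegree_comp, h1, h3, hgd,
        hgZ])
    (by rw [Polynomial.map_comp, map_toZMod, map_toZMod]; exact h2)
  rw [Polynomial.map_comp, map_embed φ, map_embed φ, ← Polynomial.map_comp] at h4
  refine ⟨irreducible_of_map φ h4, ?_⟩
  rw [← natDegree_map φ, ← map_embed φ,
    natDegree_map_eq_of_injective (IsFractionRing.injective ℤ_[p] ℚ_[p]), h3]

omit [CharZero k] in
/-- If `f(g)` is irreducible, then `f` is irreducible and `g` does not take the value of a root of `f`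
over the field generated by this root. -/
theorem not_dvd_of_comp {f g : k[X]} (hg : 2 ≤ g.natDegree) (h : Irreducible (f.comp g)) :
    Irreducible f ∧ ∀ u : k[X], ¬ f ∣ g.comp u - X := by
  have hf : Irreducible f := by
    refine ⟨fun hu => h.not_isUnit ?_, fun a b hab => ?_⟩
    · obtain ⟨c, hc, rfl⟩ := Polynomial.isUnit_iff.1 hu
      rw [C_comp]
      exact isUnit_C.2 hc
    · have h1 := h.isUnit_or_isUnit (a := a.comp g) (b := b.comp g) (by rw [hab, mul_comp])
      have hab0 : a ≠ 0 ∧ b ≠ 0 := by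
        constructor
        · rintro rfl
          rw [zero_mul] at hab
          rw [hab, zero_comp] at h
          exact h.ne_zero rfl
        · rintro rfl
          rw [mul_zero] at hab
          rw [hab, zero_comp] at h
          exact h.ne_zero rfl
      have key : ∀ q : k[X], q ≠ 0 → IsUnit (q.comp g) → IsUnit q := by
        intro q hq0 hq
        have h2 := natDegree_eq_zero_of_isUnit hq
        rw [natDegree_comp, mul_eq_zero] at h2
        rcases h2 with h2 | h2
        · rw [isUnit_iff_degree_eq_zero, degree_eq_natDegree hq0, h2]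
          rfl
        · omega
      exact h1.imp (key a hab0.1) (key b hab0.2)
  refine ⟨hf, fun u hu => ?_⟩
  haveI : Fact (Irreducible f) := ⟨hf⟩
  -- the field generated by a root
  have h1 : aeval (aeval (AdjoinRoot.root f) u) (f.comp g) = 0 := by
    have h2 : aeval (aeval (AdjoinRoot.root f) u) g = AdjoinRoot.root f := by
      have h3 : aeval (AdjoinRoot.root f) (g.comp u - X) = 0 := by
        rw [AdjoinRoot.aeval_eq]
        exact AdjoinRoot.mk_eq_zero.2 hu
      rw [map_sub, aeval_X, aeval_comp, sub_eq_zero] at h3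
      exact h3
    rw [aeval_comp, h2, AdjoinRoot.aeval_eq, AdjoinRoot.mk_self]
  haveI : Module.Finite k (AdjoinRoot f) := (AdjoinRoot.powerBasis hf.ne_zero).finite
  have hfin : Module.finrank k (AdjoinRoot f) = f.natDegree := by
    rw [(AdjoinRoot.powerBasis hf.ne_zero).finrank, AdjoinRoot.powerBasis_dim hf.ne_zero]
  have h2 : (minpoly k (aeval (AdjoinRoot.root f) u)).natDegree ≤
      Module.finrank k (AdjoinRoot f) := minpoly.natDegree_le _
  have h3 : (f.comp g).natDegree = (minpoly k (aeval (AdjoinRoot.root f) u)).natDegree := by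
    have h4 := minpoly.eq_of_irreducible h h1
    rw [← h4, natDegree_mul_C]
    exact inv_ne_zero (leadingCoeff_ne_zero.2 h.ne_zero)
  rw [← h3, hfin, natDegree_comp] at h2
  have h5 : 0 < f.natDegree := hf.natDegree_pos
  nlinarith

end

end Pool.Agent.Q126.TD
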