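import Pool.Agent.TH115.ID.Defs

/-!
Irreducible polynomials over subfields of `ℚ_p` from their reductions; polynomials which are not norms.
-/

set_option autoImplicit false

open Polynomial

namespace Pool.Agent.Q126.TD

section alg

variable {k L : Type} [Field k] [Field L] (φ : k →+* L)

/-- Irreducible over a larger field. -/
theorem irreducible_of_map {f : k[X]} (h : Irreducible (f.map φ)) : Irreducible f := by
  refine ⟨fun hu => h.not_isUnit (hu.map (mapRingHom φ)), fun a b hab => ?_⟩
  have h1 := h.isUnit_or_isUnit (a := a.map φ) (b := b.map φ) (by rw [hab, Polynomial.map_mul])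
  have key : ∀ q : k[X], IsUnit (q.map φ) → IsUnit q := by
    intro q hq
    rw [isUnit_iff_degree_eq_zero, degree_map] at hq
    exact isUnit_iff_degree_eq_zero.2 hq
  exact h1.imp (key a) (key b)

theorem not_root_of_irr {G : L[X]} (hG : Irreducible G) (hd : 2 ≤ G.natDegree) (z : L) :
    ¬ G.IsRoot z := by
  intro hz
  have h1 := hG.isUnit_or_isUnit (a := X - C z) (b := G / (X - C z))
    (mul_div_eq_iff_isRoot.2 hz).symm
  have h2 : (X - C z) * (G / (X - C z)) = G := mul_div_eq_iff_isRoot.2 hz
  have hne : G / (X - C z) ≠ 0 := by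
    intro h
    rw [h, mul_zero] at h2
    exact hG.ne_zero h2.symm
  have h3 : G.natDegree = 1 + (G / (X - C z)).natDegree := by
    conv_lhs => rw [← h2]
    rw [natDegree_mul (X_sub_C_ne_zero z) hne, natDegree_X_sub_C]
  rcases h1 with h | h
  · have := natDegree_eq_zero_of_isUnit h
    rw [natDegree_X_sub_C] at this
    omega
  · have := natDegree_eq_zero_of_isUnit h
    omega

/-- **Polynomials with a simple root over a larger field, whose other factor is irreducible, are not
norms.** -/
theorem notNorm_of_factor {b : k[X]} {z : L} {G : L[X]} (hG : Irreducible G)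
    (hd : 2 ≤ G.natDegree) (hb : b.map φ = (X - C z) * G) : Pool.Agent.TH115.GD.NotNorm b := by
  intro u D U V e
  have hz := not_root_of_irr hG hd z
  have hXz : (X - C z : L[X]) ≠ 0 := X_sub_C_ne_zero z
  have hbne : b.map φ ≠ 0 := by
    rw [hb]
    exact mul_ne_zero hXz hG.ne_zero
  have he : (X - C z) * G = C (φ u) * ((U.map φ) ^ 2 - C (φ D) * (V.map φ) ^ 2) := by
    rw [← hb, e]
    simp
  have hu : φ u ≠ 0 := by
    intro h
    rw [h, C_0, zero_mul] at he
    exact mul_ne_zero hXz hG.ne_zero he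
  have hGp : Prime G := hG.prime
  have hdX : ∀ n : ℕ, 2 ≤ n → ¬ G ^ n ∣ (X - C z) * G := by
    intro n hn h
    have h1 : G ^ 2 ∣ (X - C z) * G := (pow_dvd_pow G hn).trans h
    rw [pow_two] at h1
    have h2 := (mul_dvd_mul_iff_right hG.ne_zero).1 h1
    have h3 := natDegree_le_of_dvd h2 hXz
    rw [natDegree_X_sub_C] at h3
    omega
  have hV : V ≠ 0 := by
    rintro rfl
    rw [Polynomial.map_zero, zero_pow two_ne_zero, mul_zero, sub_zero] at he
    have h1 : G ∣ C (φ u) * (U.map φ) ^ 2 := he ▸ dvd_mul_left G _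
    have h2 : G ∣ U.map φ := by
      rcases hGp.dvd_or_dvd h1 with h | h
      · exact absurd (isUnit_of_dvd_unit h (isUnit_C.2 (isUnit_iff_ne_zero.2 hu))) hG.not_isUnit
      · exact hGp.dvd_of_dvd_pow h
    apply hdX 2 le_rfl
    rw [he]
    exact (pow_dvd_pow_of_dvd h2 2).mul_left _
  refine ⟨hV, ?_⟩
  by_contra hD
  -- a square root of `D`
  have h0 : (U.map φ).eval z ^ 2 = φ D * (V.map φ).eval z ^ 2 := by
    have h1 := congrArg (eval z) he
    simp only [eval_mul, eval_sub, eval_X, eval_C, sub_self, zero_mul, eval_pow] at h1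
    rcases mul_eq_zero.1 h1.symm with h | h
    · exact absurd h hu
    · exact sub_eq_zero.1 h
  have hVz : (V.map φ).eval z ≠ 0 := by
    intro h
    rw [h, zero_pow two_ne_zero, mul_zero] at h0
    have h1 := pow_eq_zero_iff two_ne_zero |>.1 h0
    obtain ⟨A, hA⟩ := dvd_iff_isRoot.2 h1
    obtain ⟨B, hB⟩ := dvd_iff_isRoot.2 h
    have h2 : (X - C z) * G = (X - C z) * ((X - C z) * (C (φ u) * (A ^ 2 - C (φ D) * B ^ 2))) := by
      rw [he, hA, hB]
      ring
    have h3 := mul_left_cancel₀ hXz h2
    apply hz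
    rw [h3, IsRoot, eval_mul, eval_sub, eval_X, eval_C, sub_self, zero_mul]
  obtain ⟨s, hs⟩ : ∃ s : L, φ D = s ^ 2 := by
    refine ⟨(U.map φ).eval z / (V.map φ).eval z, ?_⟩
    rw [div_pow, h0]
    field_simp
  have hD0 : D ≠ 0 := by
    rintro rfl
    exact hD ⟨0, by ring⟩
  have he2 : (X - C z) * G = C (φ u) * ((U.map φ - C s * V.map φ) * (U.map φ + C s * V.map φ)) := by
    rw [he, hs, C_pow]
    ring
  set e' := max U.natDegree V.natDegree with he'
  have hco : ∀ t : L, t ^ 2 = φ D → (U.map φ + C t * V.map φ).coeff e' ≠ 0 := by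
    intro t ht h
    rw [coeff_add, coeff_C_mul, coeff_map, coeff_map] at h
    by_cases hc : V.coeff e' = 0
    · rw [hc, map_zero, mul_zero, add_zero] at h
      have hUc : U.coeff e' = 0 := (map_eq_zero φ).1 h
      have h1 : V.natDegree < e' := by
        rcases (le_max_right U.natDegree V.natDegree).lt_or_eq with h2 | h2
        · exact h2
        · exfalso
          rw [← he'] at h2
          rw [← h2] at hc
          exact hV (leadingCoeff_eq_zero.1 hc)
      have h2 : U.natDegree = e' := by
        rw [he'] at h1 ⊢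
        omega
      rw [← h2] at hUc
      have h3 := leadingCoeff_eq_zero.1 hUc
      rw [h3, natDegree_zero] at h2
      omega
    · apply hD
      refine ⟨U.coeff e' / V.coeff e', ?_⟩
      apply φ.injective
      have hc' : φ (V.coeff e') ≠ 0 := (map_ne_zero φ).2 hc
      rw [map_mul, map_div₀, ← ht]
      have h1 : t = -φ (U.coeff e') / φ (V.coeff e') := by
        field_simp
        linear_combination h
      rw [h1]
      ring
  have hle : ∀ t : L, (U.map φ + C t * V.map φ).natDegree ≤ e' := by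
    intro t
    refine (natDegree_add_le _ _).trans (max_le ?_ ?_)
    · rw [natDegree_map]; exact le_max_left _ _
    · refine (natDegree_C_mul_le _ _).trans ?_
      rw [natDegree_map]; exact le_max_right _ _
  have hdeg : ∀ t : L, t ^ 2 = φ D → (U.map φ + C t * V.map φ).natDegree = e' := fun t ht =>
    le_antisymm (hle t) (le_natDegree_of_ne_zero (hco t ht))
  have hd1 := hdeg s hs.symm
  have hd2 : (U.map φ - C s * V.map φ).natDegree = e' := by
    have := hdeg (-s) (by rw [hs]; ring)
    rwa [C_neg, neg_mul, ← sub_eq_add_neg] at this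
  have hn1 : U.map φ + C s * V.map φ ≠ 0 := fun h => hco s hs.symm (by rw [h, coeff_zero])
  have hn2 : U.map φ - C s * V.map φ ≠ 0 := by
    intro h
    apply hco (-s) (by rw [hs]; ring)
    rw [C_neg, neg_mul, ← sub_eq_add_neg, h, coeff_zero]
  have hsum : 1 + G.natDegree = 2 * e' := by
    have h1 := congrArg natDegree he2
    rw [natDegree_mul hXz hG.ne_zero, natDegree_X_sub_C, natDegree_C_mul hu,
      natDegree_mul hn2 hn1, hd1, hd2] at h1
    omega
  have hdv : G ∣ C (φ u) * ((U.map φ - C s * V.map φ) * (U.map φ + C s * V.map φ)) :=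
    he2 ▸ dvd_mul_left G _
  have hGe : G.natDegree ≤ e' := by
    rcases hGp.dvd_or_dvd hdv with h | h
    · exact absurd (isUnit_of_dvd_unit h (isUnit_C.2 (isUnit_iff_ne_zero.2 hu))) hG.not_isUnit
    · rcases hGp.dvd_or_dvd h with h | h
      · rw [← hd2]; exact natDegree_le_of_dvd h hn2
      · rw [← hd1]; exact natDegree_le_of_dvd h hn1
  omega

end alg

section padic

variable {p : ℕ} [Fact p.Prime]

theorem isUnit_of_toZMod {x : ℤ_[p]} (h : PadicInt.toZMod x ≠ 0) : IsUnit x := by
  by_contra hx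
  apply h
  rw [← RingHom.mem_ker, PadicInt.ker_toZMod]
  exact (IsLocalRing.mem_maximalIdeal x).2 hx

/-- Irreducible reductions of the same degree. -/
theorem irr_of_red {f : ℤ_[p][X]}
    (hd : (f.map (PadicInt.toZMod (p := p))).natDegree = f.natDegree)
    (hi : Irreducible (f.map (PadicInt.toZMod (p := p)))) :
    Irreducible (f.map (algebraMap ℤ_[p] ℚ_[p])) := by
  have hlc : PadicInt.toZMod f.leadingCoeff ≠ 0 := by
    intro h
    have h1 : (f.map (PadicInt.toZMod (p := p))).coeff (f.map (PadicInt.toZMod (p := p))).natDegree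
        = 0 := by
      rw [hd, coeff_map]
      exact h
    exact hi.ne_zero (leadingCoeff_eq_zero.1 h1)
  obtain ⟨c, hc⟩ := isUnit_of_toZMod hlc
  have hcf : f.leadingCoeff * (↑c⁻¹ : ℤ_[p]) = 1 := by rw [← hc]; exact c.mul_inv
  set g : ℤ_[p][X] := f * C (↑c⁻¹ : ℤ_[p]) with hg
  have hgm : g.Monic := by
    have h0 : f.leadingCoeff * (C (↑c⁻¹ : ℤ_[p]) : ℤ_[p][X]).leadingCoeff ≠ 0 := by
      rw [leadingCoeff_C, hcf]
      exact one_ne_zero
    rw [Monic, hg, leadingCoeff_mul' h0, leadingCoeff_C, hcf]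
  have hu : IsUnit (C (↑c⁻¹ : ℤ_[p]) : ℤ_[p][X]) := isUnit_C.2 c⁻¹.isUnit
  have hgi : Irreducible (g.map (PadicInt.toZMod (p := p))) := by
    rw [hg, Polynomial.map_mul]
    exact (irreducible_mul_isUnit (hu.map (mapRingHom _))).2 hi
  have h1 := hgm.irreducible_of_irreducible_map _ _ hgi
  have h2 := (hgm.irreducible_iff_irreducible_map_fraction_map (K := ℚ_[p])).1 h1
  rw [hg, Polynomial.map_mul] at h2
  exact (irreducible_mul_isUnit (hu.map (mapRingHom _))).1 h2

/-- Reductions with a simple root and an irreducible cofactor. -/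
theorem factor_of_red {f : ℤ_[p][X]} {α : ZMod p} {g : (ZMod p)[X]} (hg : Irreducible g)
    (hg2 : 2 ≤ g.natDegree) (hf : f.map (PadicInt.toZMod (p := p)) = (X - C α) * g)
    (hd : f.natDegree = g.natDegree + 1) :
    ∃ (z : ℚ_[p]) (G : ℚ_[p][X]), Irreducible G ∧ G.natDegree = g.natDegree ∧
      f.map (algebraMap ℤ_[p] ℚ_[p]) = (X - C z) * G := by
  have hroot := not_root_of_irr hg hg2
  obtain ⟨a, ha⟩ := ZMod.ringHom_surjective (PadicInt.toZMod (p := p)) α
  have hfa : PadicInt.toZMod (f.eval a) = 0 := by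
    rw [← Polynomial.eval_map_apply, ha, hf, eval_mul, eval_sub, eval_X, eval_C, sub_self, zero_mul]
  have hda : PadicInt.toZMod (f.derivative.eval a) ≠ 0 := by
    rw [← Polynomial.eval_map_apply, ha, ← derivative_map, hf, derivative_mul, derivative_sub,
      derivative_X, derivative_C, eval_add, eval_mul, eval_mul, eval_sub, eval_sub, eval_X, eval_C,
      sub_self, zero_mul, add_zero]
    simpa using hroot α
  have hn1 : ‖f.eval a‖ < 1 := by
    rw [← PadicInt.mem_nonunits]
    intro hu
    exact (hu.map (PadicInt.toZMod (p := p))).ne_zero hfa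
  have hn2 : ‖f.derivative.eval a‖ = 1 := PadicInt.isUnit_iff.1 (isUnit_of_toZMod hda)
  obtain ⟨z, hz, -⟩ := hensels_lemma (F := f) (a := a) (by
    simp only [Polynomial.coe_aeval_eq_eval]
    rw [hn2, one_pow]
    exact hn1)
  rw [Polynomial.coe_aeval_eq_eval] at hz
  obtain ⟨G, hG⟩ := dvd_iff_isRoot.2 hz
  have hzα : PadicInt.toZMod z = α := by
    have h1 : ((X - C α) * g).IsRoot (PadicInt.toZMod z) := by
      rw [← hf, IsRoot, Polynomial.eval_map_apply, hz, map_zero]
    rw [IsRoot, eval_mul, mul_eq_zero] at h1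
    rcases h1 with h | h
    · rw [eval_sub, eval_X, eval_C] at h
      exact sub_eq_zero.1 h
    · exact absurd h (hroot _)
  have hGg : G.map (PadicInt.toZMod (p := p)) = g := by
    have h1 := hf
    rw [hG, Polynomial.map_mul, Polynomial.map_sub, map_X, map_C, hzα] at h1
    exact mul_left_cancel₀ (X_sub_C_ne_zero α) h1
  have hG0 : G ≠ 0 := by
    rintro rfl
    rw [Polynomial.map_zero] at hGg
    exact hg.ne_zero hGg.symm
  have hGd : G.natDegree = g.natDegree := by
    have h1 := congrArg natDegree hG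
    rw [natDegree_mul (X_sub_C_ne_zero z) hG0, natDegree_X_sub_C, hd] at h1
    omega
  refine ⟨z, G.map (algebraMap ℤ_[p] ℚ_[p]), ?_, ?_, ?_⟩
  · apply irr_of_red
    · rw [hGg, hGd]
    · rw [hGg]; exact hg
  · rw [natDegree_map_eq_of_injective (IsFractionRing.injective ℤ_[p] ℚ_[p]), hGd]
  · rw [hG, Polynomial.map_mul, Polynomial.map_sub, map_X, map_C]
    rfl

end padic

end Pool.Agent.Q126.TD
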