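import Mathlib

/-!
Polynomials with given vectors of coefficients.
-/

set_option autoImplicit false

open Polynomial

namespace Pool.Agent.Q126.TD

/-- The polynomial with the coefficients `v 0, …, v n`. -/
noncomputable def pol {R : Type} [CommRing R] {n : ℕ} (v : Fin (n + 1) → R) : R[X] :=
  ∑ i, C (v i) * X ^ (i : ℕ)

section

variable {R : Type} [CommRing R] {n : ℕ}

theorem coeff_pol (v : Fin (n + 1) → R) (i : Fin (n + 1)) : (pol v).coeff i = v i := by
  unfold pol
  rw [finset_sum_coeff]
  simp only [coeff_C_mul, coeff_X_pow]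
  rw [Finset.sum_eq_single i]
  · simp
  · intro j _ hj
    rw [if_neg, mul_zero]
    intro h
    exact hj (Fin.ext h.symm)
  · intro h
    exact absurd (Finset.mem_univ i) h

theorem natDegree_pol_le (v : Fin (n + 1) → R) : (pol v).natDegree ≤ n := by
  unfold pol
  apply natDegree_sum_le_of_forall_le
  intro i _
  refine (natDegree_C_mul_X_pow_le _ _).trans ?_
  omega

theorem pol_coeff {f : R[X]} (hf : f.natDegree ≤ n) : pol (fun i : Fin (n + 1) => f.coeff i) = f := by
  ext j
  by_cases hj : j < n + 1
  · exact coeff_pol _ ⟨j, hj⟩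
  · rw [coeff_eq_zero_of_natDegree_lt (by have := natDegree_pol_le (fun i : Fin (n + 1) => f.coeff i); omega),
      coeff_eq_zero_of_natDegree_lt (by omega)]

theorem pol_injective : Function.Injective (pol : (Fin (n + 1) → R) → R[X]) := by
  intro v w h
  funext i
  rw [← coeff_pol v i, ← coeff_pol w i, h]

theorem map_pol {S : Type} [CommRing S] (φ : R →+* S) (v : Fin (n + 1) → R) :
    (pol v).map φ = pol fun i => φ (v i) := by
  unfold pol
  rw [Polynomial.map_sum]
  simp

/-- The vectors and the polynomials of degree at most `n` have the same number. -/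
theorem ncard_pol (P : R[X] → Prop) :
    {v : Fin (n + 1) → R | P (pol v)}.ncard = {f : R[X] | f.natDegree ≤ n ∧ P f}.ncard := by
  rw [← Set.ncard_image_of_injective _ (pol_injective (R := R) (n := n))]
  congr 1
  ext f
  constructor
  · rintro ⟨v, hv, rfl⟩
    exact ⟨natDegree_pol_le v, hv⟩
  · rintro ⟨h1, h2⟩
    refine ⟨fun i => f.coeff i, ?_, pol_coeff h1⟩
    show P _
    rw [pol_coeff h1]
    exact h2

end

end Pool.Agent.Q126.TD
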