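import Pool.Agent.TH943.PT.Orb
import Pool.Agent.Q126.TD.Pol
import Pool.Agent.Q126.TD.Irr

/-!
The number of irreducible polynomials modulo a prime.
-/

set_option autoImplicit false

open Polynomial

namespace Pool.Agent.Q126.TD

section

variable {p : ℕ} [Fact p.Prime]

theorem finite_le (n : ℕ) : {f : (ZMod p)[X] | f.natDegree ≤ n}.Finite := by
  apply (Set.finite_range (pol : (Fin (n + 1) → ZMod p) → (ZMod p)[X])).subset
  intro f hf
  exact ⟨fun i => f.coeff i, pol_coeff hf⟩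

/-- The irreducible polynomials `g` of degree `N` such that `g(f)` is irreducible. -/
theorem count_irr (hp : 11 ≤ p) {f : (ZMod p)[X]} (hf : f.Monic) (hf3 : f.natDegree = 3)
    (hab : f.coeff 2 ^ 2 ≠ 3 * f.coeff 1) {N : ℕ} (hN : 0 < N) :
    1 / (24 * N : ℝ) * (p : ℝ) ^ (N + 1) ≤
      ({g : (ZMod p)[X] | g.natDegree = N ∧ Irreducible g ∧ Irreducible (g.comp f)}.ncard : ℝ) := by
  classical
  have ne : ∀ n : ℕ, 0 < n → n < p → ((n : ℕ) : ZMod p) ≠ 0 := by
    intro n h1 h2 h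
    rw [ZMod.natCast_eq_zero_iff] at h
    have := Nat.le_of_dvd h1 h
    omega
  have h2 : (2 : ZMod p) ≠ 0 := by exact_mod_cast ne 2 (by norm_num) (by omega)
  have h3 : (3 : ZMod p) ≠ 0 := by exact_mod_cast ne 3 (by norm_num) (by omega)
  have h4 := Pool.Agent.TH943.PT.inert_count h2 h3 hf hf3 hab hN
  set A := {P : {P : (ZMod p)[X] // P.Monic ∧ Irreducible P} | P.1.natDegree = N ∧
        Irreducible (P.1.comp f)} with hA
  rw [Nat.card_eq_fintype_card, ZMod.card] at h4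
  have hpR : (11 : ℝ) ≤ p := by exact_mod_cast hp
  have hNR : (1 : ℝ) ≤ N := by exact_mod_cast hN
  -- the sum over the divisors
  have h5 : ((∑ d ∈ N.properDivisors, (p : ℤ) ^ d : ℤ) : ℝ) * 10 ≤ (p : ℝ) ^ N - 1 := by
    have h6 : (∑ d ∈ N.properDivisors, (p : ℝ) ^ d) ≤ ∑ d ∈ Finset.range N, (p : ℝ) ^ d := by
      apply Finset.sum_le_sum_of_subset_of_nonneg
      · intro d hd
        rw [Finset.mem_range]
        exact (Nat.mem_properDivisors.1 hd).2
      · intro d _ _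
        positivity
    have h7 := geom_sum_mul (p : ℝ) N
    have h8 : (0 : ℝ) ≤ ∑ d ∈ Finset.range N, (p : ℝ) ^ d :=
      Finset.sum_nonneg fun d _ => by positivity
    push_cast
    nlinarith
  have h6 : (p : ℝ) ^ N - 3 * (N * A.ncard) ≤
      3 * ((∑ d ∈ N.properDivisors, (p : ℤ) ^ d : ℤ) : ℝ) + 1 := by
    have h7 := (abs_le.1 h4).1
    have h8 : -(3 * (((∑ d ∈ N.properDivisors, (p : ℤ) ^ d : ℤ) : ℤ) : ℝ) + 1) ≤
        3 * (N * A.ncard) - (p : ℝ) ^ N := by exact_mod_cast h7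
    linarith
  have hpN : (p : ℝ) ≤ (p : ℝ) ^ N := by
    calc (p : ℝ) = (p : ℝ) ^ 1 := (pow_one _).symm
      _ ≤ (p : ℝ) ^ N := pow_le_pow_right₀ (by linarith) hN
  have h7 : (p : ℝ) ^ N ≤ 12 * (N * A.ncard) := by nlinarith
  -- all leading coefficients
  set B := {g : (ZMod p)[X] | g.natDegree = N ∧ Irreducible g ∧ Irreducible (g.comp f)} with hB
  have hBf : B.Finite := (finite_le N).subset fun g hg => hg.1.le
  have h8 : (p - 1) * A.ncard ≤ B.ncard := by
    have h9 : (Set.univ ×ˢ A : Set ((ZMod p)ˣ × _)).ncard = (p - 1) * A.ncard := by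
      rw [Set.ncard_prod, Set.ncard_univ, Nat.card_eq_fintype_card, ZMod.card_units_eq_totient,
        Nat.totient_prime (Fact.out : p.Prime)]
    rw [← h9]
    refine Set.ncard_le_ncard_of_injOn (fun x => C (x.1 : ZMod p) * x.2.1) ?_ ?_ hBf
    · rintro ⟨a, P⟩ ⟨-, hP1, hP2⟩
      have ha : (a : ZMod p) ≠ 0 := a.ne_zero
      have hu : IsUnit (C (a : ZMod p) : (ZMod p)[X]) := isUnit_C.2 a.isUnit
      refine ⟨?_, ?_, ?_⟩
      · show (C (a : ZMod p) * P.1).natDegree = N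
        rw [natDegree_C_mul ha, hP1]
      · exact (irreducible_isUnit_mul hu).2 P.2.2
      · show Irreducible ((C (a : ZMod p) * P.1).comp f)
        rw [mul_comp, C_comp]
        exact (irreducible_isUnit_mul hu).2 hP2
    · rintro ⟨a, P⟩ - ⟨b, Q⟩ - h
      have h1 : C (a : ZMod p) * P.1 = C (b : ZMod p) * Q.1 := h
      have h10 := congrArg leadingCoeff h1
      rw [leadingCoeff_mul, leadingCoeff_mul, leadingCoeff_C, leadingCoeff_C,
        P.2.1.leadingCoeff, Q.2.1.leadingCoeff, mul_one, mul_one] at h10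
      have h11 : a = b := Units.ext h10
      subst h11
      have h12 : P.1 = Q.1 := mul_left_cancel₀ (C_ne_zero.2 a.ne_zero) h1
      rw [Subtype.ext h12]
  have h9 : ((p : ℝ) - 1) * A.ncard ≤ B.ncard := by
    have h10 : ((p - 1 : ℕ) : ℝ) * A.ncard ≤ B.ncard := by exact_mod_cast h8
    rwa [Nat.cast_sub (by omega), Nat.cast_one] at h10
  have h10 : (0 : ℝ) ≤ A.ncard := Nat.cast_nonneg _
  have h11 : (p : ℝ) ^ N * (p : ℝ) ≤ 24 * N * (((p : ℝ) - 1) * A.ncard) := by
    have h12 : (p : ℝ) ^ N * p ≤ 12 * (N * A.ncard) * p :=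
      mul_le_mul_of_nonneg_right h7 (by linarith)
    have h13 : (p : ℝ) ≤ 2 * (p - 1) := by linarith
    have h14 : 12 * (N * (A.ncard : ℝ)) * p ≤ 12 * (N * A.ncard) * (2 * (p - 1)) :=
      mul_le_mul_of_nonneg_left h13 (by positivity)
    linarith
  rw [pow_succ, div_mul_eq_mul_div, one_mul, div_le_iff₀ (by positivity)]
  nlinarith

/-- Vectors of coefficients of irreducible polynomials. -/
theorem count_irr_vec (hp : 11 ≤ p) {f : (ZMod p)[X]} (hf : f.Monic) (hf3 : f.natDegree = 3)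
    (hab : f.coeff 2 ^ 2 ≠ 3 * f.coeff 1) {N : ℕ} (hN : 0 < N) :
    1 / (24 * N : ℝ) * (p : ℝ) ^ (N + 1) ≤
      ({v : Fin (N + 1) → ZMod p | (pol v).natDegree = N ∧ Irreducible (pol v) ∧
        Irreducible ((pol v).comp f)}.ncard : ℝ) := by
  refine (count_irr hp hf hf3 hab hN).trans (le_of_eq ?_)
  rw [ncard_pol (n := N) fun g : (ZMod p)[X] => g.natDegree = N ∧ Irreducible g ∧
    Irreducible (g.comp f)]
  congr 2
  ext g
  constructor
  · rintro ⟨h1, h2⟩
    exact ⟨h1.le, h1, h2⟩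
  · rintro ⟨-, h1, h2⟩
    exact ⟨h1, h2⟩

/-- A cubic polynomial for the counts. -/
theorem cubic_ok (hp : 11 ≤ p) : ((X : (ZMod p)[X]) ^ 3 + X).Monic ∧
    ((X : (ZMod p)[X]) ^ 3 + X).natDegree = 3 ∧
    ((X : (ZMod p)[X]) ^ 3 + X).coeff 2 ^ 2 ≠ 3 * ((X : (ZMod p)[X]) ^ 3 + X).coeff 1 := by
  have h3 : (3 : ZMod p) ≠ 0 := by
    intro h
    have h' : ((3 : ℕ) : ZMod p) = 0 := by exact_mod_cast h
    rw [ZMod.natCast_eq_zero_iff] at h'
    have := Nat.le_of_dvd (by norm_num) h'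
    omega
  refine ⟨?_, ?_, ?_⟩
  · monicity!
  · compute_degree!
  · simp [coeff_X, coeff_X_pow]
    exact fun h => h3 h.symm

/-- The irreducible polynomials of degree `N`. -/
theorem count1 (hp : 11 ≤ p) {N : ℕ} (hN : 0 < N) :
    1 / (24 * N : ℝ) * (p : ℝ) ^ (N + 1) ≤
      ({v : Fin (N + 1) → ZMod p | (pol v).natDegree = N ∧ Irreducible (pol v)}.ncard : ℝ) := by
  obtain ⟨h1, h2, h3⟩ := cubic_ok hp
  refine (count_irr_vec hp h1 h2 h3 hN).trans ?_
  have hsub : {v : Fin (N + 1) → ZMod p | (pol v).natDegree = N ∧ Irreducible (pol v) ∧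
        Irreducible ((pol v).comp (X ^ 3 + X))} ⊆
      {v : Fin (N + 1) → ZMod p | (pol v).natDegree = N ∧ Irreducible (pol v)} :=
    fun v hv => ⟨hv.1, hv.2.1⟩
  exact_mod_cast Set.ncard_le_ncard hsub (Set.toFinite _)

/-- The polynomials of degree `N + 1` with exactly one root, and an irreducible cofactor. -/
theorem count2 (hp : 11 ≤ p) {N : ℕ} (hN : 2 ≤ N) :
    1 / (24 * N : ℝ) * (p : ℝ) ^ (N + 2) ≤
      ({v : Fin (N + 2) → ZMod p | ∃ (α : ZMod p) (g : (ZMod p)[X]), g.natDegree = N ∧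
        Irreducible g ∧ pol v = (X - C α) * g}.ncard : ℝ) := by
  classical
  set A := {v : Fin (N + 1) → ZMod p | (pol v).natDegree = N ∧ Irreducible (pol v)} with hA
  set B := {v : Fin (N + 2) → ZMod p | ∃ (α : ZMod p) (g : (ZMod p)[X]), g.natDegree = N ∧
        Irreducible g ∧ pol v = (X - C α) * g} with hB
  have h1 := count1 hp (N := N) (by omega)
  have h2 : p * A.ncard ≤ B.ncard := by
    have h9 : (Set.univ ×ˢ A : Set (ZMod p × _)).ncard = p * A.ncard := by
      rw [Set.ncard_prod, Set.ncard_univ, Nat.card_eq_fintype_card, ZMod.card]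
    rw [← h9]
    have hpol : ∀ (α : ZMod p) (v : Fin (N + 1) → ZMod p),
        pol (n := N + 1) (fun i => ((X - C α) * pol v).coeff i) = (X - C α) * pol v := by
      intro α v
      apply pol_coeff
      refine natDegree_mul_le.trans ?_
      rw [natDegree_X_sub_C]
      have := natDegree_pol_le v
      omega
    refine Set.ncard_le_ncard_of_injOn (fun x => fun i => ((X - C x.1) * pol x.2).coeff i)
      ?_ ?_ (Set.toFinite _)
    · rintro ⟨α, v⟩ ⟨-, hv1, hv2⟩
      exact ⟨α, pol v, hv1, hv2, hpol α v⟩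
    · rintro ⟨α, v⟩ ⟨-, hv1, hv2⟩ ⟨β, w⟩ ⟨-, hw1, hw2⟩ h
      have h3 : (X - C α) * pol v = (X - C β) * pol w := by
        rw [← hpol α v, ← hpol β w]
        exact congrArg pol h
      have h4 : α = β := by
        have h5 := congrArg (eval α) h3
        simp only [eval_mul, eval_sub, eval_X, eval_C, sub_self, zero_mul] at h5
        rcases mul_eq_zero.1 h5.symm with h6 | h6
        · exact sub_eq_zero.1 h6
        · exact absurd h6 (not_root_of_irr hw2 (by rw [hw1]; exact hN) α)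
      subst h4
      have h5 : pol v = pol w := mul_left_cancel₀ (X_sub_C_ne_zero α) h3
      rw [pol_injective h5]
  have h3 : (p : ℝ) * A.ncard ≤ B.ncard := by exact_mod_cast h2
  calc 1 / (24 * N : ℝ) * (p : ℝ) ^ (N + 2)
      = p * (1 / (24 * N : ℝ) * (p : ℝ) ^ (N + 1)) := by ring
    _ ≤ p * A.ncard := mul_le_mul_of_nonneg_left h1 (Nat.cast_nonneg _)
    _ ≤ B.ncard := h3

end

end Pool.Agent.Q126.TD
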