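import Mathlib

/-!
Integer vectors with given reductions modulo many primes.
-/

set_option autoImplicit false

namespace Pool.Agent.Q126.TD

open Filter Topology

section

variable {κ : Type} [Fintype κ]

/-- The integer vectors with coordinates of absolute value at most `H`. -/
def Box (κ : Type) (H : ℕ) : Set (κ → ℤ) := {v | ∀ i, |v i| ≤ H}

theorem box_eq [DecidableEq κ] (H : ℕ) : Box κ H =
    ((Fintype.piFinset fun _ : κ => Finset.Icc (-(H : ℤ)) H : Finset (κ → ℤ)) : Set (κ → ℤ)) := by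
  ext v
  simp only [Box, Set.mem_ofPred_eq, Finset.mem_coe, Fintype.mem_piFinset, Finset.mem_Icc, abs_le]

theorem box_finite (H : ℕ) : (Box κ H).Finite := by
  classical
  rw [box_eq]
  exact Finset.finite_toSet _

theorem box_ncard (H : ℕ) : (Box κ H).ncard = (2 * H + 1) ^ Fintype.card κ := by
  classical
  rw [box_eq, Set.ncard_coe_finset, Fintype.card_piFinset]
  simp only [Int.card_Icc, Finset.prod_const, Finset.card_univ]
  congr 1
  omega

/-- Two integers congruent modulo different primes are congruent modulo the product. -/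
theorem dvd_of_primes (T : Finset ℕ) (hT : ∀ p ∈ T, p.Prime) (z : ℤ) (h : ∀ p ∈ T, (p : ℤ) ∣ z) :
    ((∏ p ∈ T, p : ℕ) : ℤ) ∣ z := by
  push_cast
  apply Finset.prod_dvd_of_coprime
  · intro p hp q hq hpq
    exact Nat.isCoprime_iff_coprime.2 ((Nat.coprime_primes (hT p hp) (hT q hq)).2 hpq)
  · intro p hp
    exact h p hp

/-- The vectors in a box with reductions in given sets. -/
theorem count_le (T : Finset ℕ) (hT : ∀ p ∈ T, p.Prime)
    (B : ∀ p : T, Finset (κ → ZMod (p : ℕ))) (H : ℕ) :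
    ({v : κ → ℤ | v ∈ Box κ H ∧ ∀ p : T, (fun i => ((v i : ℤ) : ZMod (p : ℕ))) ∈ B p}).ncard ≤
      (2 * H / (∏ p ∈ T, p) + 1) ^ Fintype.card κ * ∏ p : T, (B p).card := by
  classical
  set M := ∏ p ∈ T, p with hM
  have hM0 : 0 < M := Finset.prod_pos fun p hp => (hT p hp).pos
  set S := {v : κ → ℤ | v ∈ Box κ H ∧ ∀ p : T, (fun i => ((v i : ℤ) : ZMod (p : ℕ))) ∈ B p}
    with hS
  have hSf : S.Finite := (box_finite H).subset fun v hv => hv.1
  let f : (κ → ℤ) → (κ → Fin (2 * H / M + 1)) × (∀ p : T, κ → ZMod (p : ℕ)) :=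
    fun v => (fun i => Fin.ofNat _ ((v i + H).toNat / M),
      fun p i => ((v i : ℤ) : ZMod (p : ℕ)))
  have hinj : Set.InjOn f S := by
    intro v hv w hw hvw
    obtain ⟨hvb, -⟩ := hv
    obtain ⟨hwb, -⟩ := hw
    funext i
    have h1 := congrFun (congrArg Prod.fst hvw) i
    have h2 := congrArg Prod.snd hvw
    have hv1 := abs_le.1 (hvb i)
    have hw1 := abs_le.1 (hwb i)
    have hdvd : ((M : ℕ) : ℤ) ∣ v i - w i := by
      apply dvd_of_primes T hT
      intro p hp
      have h3 := congrFun (congrFun h2 ⟨p, hp⟩) i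
      rw [← ZMod.intCast_zmod_eq_zero_iff_dvd]
      push_cast
      exact sub_eq_zero.2 h3
    obtain ⟨a, ha⟩ := Int.eq_ofNat_of_zero_le (by linarith : 0 ≤ v i + H)
    obtain ⟨b, hb⟩ := Int.eq_ofNat_of_zero_le (by linarith : 0 ≤ w i + H)
    have ha2 : a ≤ 2 * H := by omega
    have hb2 : b ≤ 2 * H := by omega
    have h4 : a / M = b / M := by
      have h5 := congrArg Fin.val h1
      have e1 : (f v).1 i = Fin.ofNat _ (a / M) := by
        show Fin.ofNat _ ((v i + H).toNat / M) = _
        rw [ha]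
        rfl
      have e2 : (f w).1 i = Fin.ofNat _ (b / M) := by
        show Fin.ofNat _ ((w i + H).toNat / M) = _
        rw [hb]
        rfl
      rw [e1, e2] at h5
      change (a / M) % (2 * H / M + 1) = (b / M) % (2 * H / M + 1) at h5
      rw [Nat.mod_eq_of_lt (Nat.lt_succ_of_le (Nat.div_le_div_right ha2)),
        Nat.mod_eq_of_lt (Nat.lt_succ_of_le (Nat.div_le_div_right hb2))] at h5
      exact h5
    have h6 : a % M = b % M := by
      have h7 : ((M : ℕ) : ℤ) ∣ (a : ℤ) - b := by
        have : (a : ℤ) - b = v i - w i := by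
          have e1 : (a : ℤ) = v i + H := ha.symm
          have e2 : (b : ℤ) = w i + H := hb.symm
          linarith
        rw [this]
        exact hdvd
      exact ((Nat.modEq_iff_dvd (n := M) (a := b) (b := a)).2 h7).symm
    have h8 : a = b := by
      rw [← Nat.div_add_mod a M, ← Nat.div_add_mod b M, h4, h6]
    have : (a : ℤ) = b := by exact_mod_cast h8
    have e1 : (a : ℤ) = v i + H := ha.symm
    have e2 : (b : ℤ) = w i + H := hb.symm
    linarith
  have hmap : ∀ v ∈ S, f v ∈ ((Finset.univ : Finset (κ → Fin (2 * H / M + 1))) ×ˢ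
      (Fintype.piFinset B) : Finset _) := by
    intro v hv
    rw [Finset.mem_product]
    exact ⟨Finset.mem_univ _, Fintype.mem_piFinset.2 hv.2⟩
  have h9 := Set.ncard_le_ncard_of_injOn f (t := (((Finset.univ : Finset (κ → Fin (2 * H / M + 1))) ×ˢ
      (Fintype.piFinset B) : Finset _) : Set _)) (fun v hv => hmap v hv) hinj
      (Finset.finite_toSet _)
  refine h9.trans (le_of_eq ?_)
  rw [Set.ncard_coe_finset, Finset.card_product, Fintype.card_piFinset, Finset.card_univ,
    Fintype.card_fun, Fintype.card_fin]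

/-- `S` contains almost all integer vectors: the proportion of the vectors in `S` among the vectors
with coordinates of absolute value at most `H` tends to `1`. -/
def Full (S : Set (κ → ℤ)) : Prop :=
  Tendsto (fun H : ℕ => ((Box κ H ∩ S).ncard : ℝ) / (2 * H + 1 : ℝ) ^ Fintype.card κ) atTop (𝓝 1)

theorem full_iff (S : Set (κ → ℤ)) : Full S ↔
    Tendsto (fun H : ℕ => ((Box κ H ∩ Sᶜ).ncard : ℝ) / (2 * H + 1 : ℝ) ^ Fintype.card κ) atTop
      (𝓝 0) := by
  have h : ∀ H : ℕ, ((Box κ H ∩ S).ncard : ℝ) / (2 * H + 1 : ℝ) ^ Fintype.card κ =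
      1 - ((Box κ H ∩ Sᶜ).ncard : ℝ) / (2 * H + 1 : ℝ) ^ Fintype.card κ := by
    intro H
    have h1 := Set.ncard_inter_add_ncard_diff_eq_ncard (Box κ H) S (box_finite H)
    rw [box_ncard] at h1
    have h2 : (2 * H + 1 : ℝ) ^ Fintype.card κ ≠ 0 := by positivity
    have h3 : ((Box κ H ∩ S).ncard : ℝ) + (Box κ H ∩ Sᶜ).ncard =
        (2 * H + 1 : ℝ) ^ Fintype.card κ := by
      rw [← Set.diff_eq]
      exact_mod_cast h1
    rw [eq_sub_iff_add_eq, ← add_div, h3, div_self h2]
  unfold Full
  simp only [h]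
  constructor
  · intro h1
    have h2 := h1.const_sub 1
    simpa using h2
  · intro h1
    have h2 := h1.const_sub 1
    simpa using h2

theorem Full.mono {S S' : Set (κ → ℤ)} (h : Full S) (hS : S ⊆ S') : Full S' := by
  rw [full_iff] at h ⊢
  refine squeeze_zero (fun H => by positivity) (fun H => ?_) h
  apply div_le_div_of_nonneg_right _ (by positivity)
  exact_mod_cast Set.ncard_le_ncard (Set.inter_subset_inter_right _ (Set.compl_subset_compl.2 hS))
    ((box_finite H).subset Set.inter_subset_left)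

theorem Full.inter {S S' : Set (κ → ℤ)} (h : Full S) (h' : Full S') : Full (S ∩ S') := by
  rw [full_iff] at h h' ⊢
  have h2 := h.add h'
  rw [add_zero] at h2
  refine squeeze_zero (fun H => by positivity) (fun H => ?_) h2
  rw [← add_div]
  apply div_le_div_of_nonneg_right _ (by positivity)
  have h3 : Box κ H ∩ (S ∩ S')ᶜ ⊆ (Box κ H ∩ Sᶜ) ∪ (Box κ H ∩ S'ᶜ) := by
    rw [← Set.inter_union_distrib_left, Set.compl_inter]
  have h4 := Set.ncard_le_ncard h3 (((box_finite H).subset Set.inter_subset_left).union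
    ((box_finite H).subset Set.inter_subset_left))
  exact_mod_cast h4.trans (Set.ncard_union_le _ _)

/-- **Sets which contain a positive proportion of the residue classes modulo infinitely many
primes.** -/
theorem full_of_primes (S : Set (κ → ℤ)) (c : ℝ) (hc : 0 < c)
    (hinf : {p : ℕ | p.Prime ∧ ∃ G : Set (κ → ZMod p),
      c * (p : ℝ) ^ Fintype.card κ ≤ G.ncard ∧
        ∀ v : κ → ℤ, (fun i => ((v i : ℤ) : ZMod p)) ∈ G → v ∈ S}.Infinite) : Full S := by
  classical
  rw [full_iff]
  set N := Fintype.card κ with hN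
  -- the constant is at most one
  have hc1 : c ≤ 1 := by
    obtain ⟨p, hp, G, hG, -⟩ := hinf.nonempty
    haveI : Fact p.Prime := ⟨hp⟩
    have h1 : (G.ncard : ℝ) ≤ (p : ℝ) ^ N := by
      have h2 := Set.ncard_le_card G
      rw [Nat.card_eq_fintype_card, Fintype.card_fun, ZMod.card] at h2
      exact_mod_cast h2
    have h3 : (0 : ℝ) < (p : ℝ) ^ N := by
      have := hp.pos
      positivity
    have h4 := hG.trans h1
    by_contra h5
    push Not at h5
    have := mul_lt_mul_of_pos_right h5 h3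
    linarith
  rw [Metric.tendsto_atTop]
  intro ε hε
  obtain ⟨r, hr⟩ := exists_pow_lt_of_lt_one (half_pos hε) (by linarith : 1 - c < 1)
  obtain ⟨T, hT, hTr⟩ := hinf.exists_subset_card_eq r
  have hTp : ∀ p ∈ T, p.Prime := fun p hp => (hT hp).1
  set M := ∏ p ∈ T, p with hM
  have hM0 : 0 < M := Finset.prod_pos fun p hp => (hTp p hp).pos
  choose G hG1 hG2 using fun p : T => (hT p.2).2
  haveI : ∀ p : T, Fact (p : ℕ).Prime := fun p => ⟨hTp p p.2⟩
  let B : ∀ p : T, Finset (κ → ZMod (p : ℕ)) := fun p => Finset.univ.filter fun v => v ∉ G p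
  have hB : ∀ p : T, ((B p).card : ℝ) ≤ (1 - c) * ((p : ℕ) : ℝ) ^ N := by
    intro p
    have h1 : (B p).card + (G p).ncard = (p : ℕ) ^ N := by
      have h2 : (G p).ncard = (Finset.univ.filter fun v => v ∈ G p).card := by
        rw [← Set.ncard_coe_finset]
        congr 1
        ext v
        simp
      rw [h2, add_comm, Finset.card_filter_add_card_filter_not, Finset.card_univ,
        Fintype.card_fun, ZMod.card]
    have h3 : ((B p).card : ℝ) + (G p).ncard = ((p : ℕ) : ℝ) ^ N := by exact_mod_cast h1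
    have := hG1 p
    linarith
  have hbound : ∀ H : ℕ, ((Box κ H ∩ Sᶜ).ncard : ℝ) ≤ (2 * H + M) ^ N * (1 - c) ^ r := by
    intro H
    have h1 : Box κ H ∩ Sᶜ ⊆ {v : κ → ℤ | v ∈ Box κ H ∧
        ∀ p : T, (fun i => ((v i : ℤ) : ZMod (p : ℕ))) ∈ B p} := by
      rintro v ⟨hv, hvS⟩
      refine ⟨hv, fun p => ?_⟩
      rw [Finset.mem_filter]
      exact ⟨Finset.mem_univ _, fun h => hvS (hG2 p v h)⟩
    have h2 := (Set.ncard_le_ncard h1 ((box_finite H).subset fun v hv => hv.1)).trans
      (count_le T hTp B H)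
    have h3 : ((Box κ H ∩ Sᶜ).ncard : ℝ) ≤
        ((2 * H / M + 1 : ℕ) : ℝ) ^ N * ∏ p : T, ((B p).card : ℝ) := by exact_mod_cast h2
    have h4 : ∏ p : T, ((B p).card : ℝ) ≤ (1 - c) ^ r * (M : ℝ) ^ N := by
      calc ∏ p : T, ((B p).card : ℝ) ≤ ∏ p : T, ((1 - c) * ((p : ℕ) : ℝ) ^ N) :=
            Finset.prod_le_prod (fun p _ => by positivity) fun p _ => hB p
        _ = (1 - c) ^ r * (M : ℝ) ^ N := by
            rw [Finset.prod_mul_distrib, Finset.prod_const, Finset.card_univ,
              Fintype.card_coe, hTr, Finset.prod_pow]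
            congr 2
            rw [hM, Nat.cast_prod]
            exact (Finset.prod_coe_sort T (fun p : ℕ => (p : ℝ)))
    have h5 : ((2 * H / M + 1 : ℕ) : ℝ) * M ≤ 2 * H + M := by
      have : (2 * H / M + 1) * M ≤ 2 * H + M := by
        rw [add_mul, one_mul]
        have := Nat.div_mul_le_self (2 * H) M
        omega
      exact_mod_cast this
    calc ((Box κ H ∩ Sᶜ).ncard : ℝ)
        ≤ ((2 * H / M + 1 : ℕ) : ℝ) ^ N * ∏ p : T, ((B p).card : ℝ) := h3
      _ ≤ ((2 * H / M + 1 : ℕ) : ℝ) ^ N * ((1 - c) ^ r * (M : ℝ) ^ N) :=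
          mul_le_mul_of_nonneg_left h4 (by positivity)
      _ = (((2 * H / M + 1 : ℕ) : ℝ) * M) ^ N * (1 - c) ^ r := by
          rw [mul_pow]; ring
      _ ≤ (2 * H + M) ^ N * (1 - c) ^ r := by
          apply mul_le_mul_of_nonneg_right
          · exact pow_le_pow_left₀ (by positivity) h5 _
          · exact pow_nonneg (by linarith) _
  -- the limit
  have hlim : Tendsto (fun H : ℕ => ((2 * H + M : ℝ) / (2 * H + 1)) ^ N * (1 - c) ^ r) atTop
      (𝓝 (1 ^ N * (1 - c) ^ r)) := by
    apply Tendsto.mul_const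
    apply Tendsto.pow
    have h1 : ∀ H : ℕ, (2 * H + M : ℝ) / (2 * H + 1) = 1 + (M - 1) / (2 * H + 1) := by
      intro H
      have : (2 * H + 1 : ℝ) ≠ 0 := by positivity
      field_simp
      ring
    simp only [h1]
    have h2 : Tendsto (fun H : ℕ => (2 * H + 1 : ℝ)) atTop atTop := by
      apply tendsto_atTop_add_const_right
      exact tendsto_natCast_atTop_atTop.const_mul_atTop (by norm_num)
    have h3 := (tendsto_const_nhds (x := (M - 1 : ℝ))).div_atTop h2
    simpa using h3.const_add 1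
  rw [one_pow, one_mul] at hlim
  have hev := hlim.eventually (gt_mem_nhds (hr.trans (half_lt_self hε)))
  obtain ⟨H₀, hH₀⟩ := eventually_atTop.1 hev
  refine ⟨H₀, fun H hH => ?_⟩
  rw [Real.dist_eq, sub_zero, abs_of_nonneg (by positivity)]
  refine lt_of_le_of_lt ?_ (hH₀ H hH)
  rw [div_pow, div_mul_eq_mul_div]
  exact div_le_div_of_nonneg_right (hbound H) (by positivity)

end

end Pool.Agent.Q126.TD
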