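import Pool.Agent.H927R2.RD.Final2

/-!
Finitely generated fields of characteristic zero have embeddings in `ℚ_p` for infinitely many primes
`p` (Cassels; from `Pool.Agent.H927R2.RD`).
-/

set_option autoImplicit false

namespace Pool.Agent.Q126.TD

open Cardinal Pool.Agent.H927R2.RD

/-- Countable fields of characteristic zero can be embedded in `ℂ`. -/
theorem exists_embed (L : Type) [Field L] [CharZero L] [Countable L] : Nonempty (L →+* ℂ) := by
  let F := MvPolynomial ℝ L
  let Q := FractionRing F
  let M := AlgebraicClosure Q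
  have h1 : #F ≤ 𝔠 := by
    refine (MvPolynomial.cardinalMk_le_max).trans ?_
    refine max_le (max_le ?_ ?_) aleph0_le_continuum
    · exact (Cardinal.mk_le_aleph0).trans aleph0_le_continuum
    · exact Cardinal.mk_real.le
  have h2 : #Q ≤ 𝔠 := (IsLocalization.cardinalMk_le (nonZeroDivisors F)).trans h1
  have h3 : #M ≤ 𝔠 :=
    (Algebra.IsAlgebraic.cardinalMk_le_max Q M).trans (max_le h2 aleph0_le_continuum)
  have hinj : Function.Injective fun r : ℝ =>
      algebraMap Q M (algebraMap F Q (MvPolynomial.X r)) := by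
    intro a b hab
    have h4 := (algebraMap Q M).injective hab
    have h5 := IsFractionRing.injective F Q h4
    exact MvPolynomial.X_injective h5
  have h4 : 𝔠 ≤ #M := by
    rw [← Cardinal.mk_real]
    exact Cardinal.mk_le_of_injective hinj
  have h5 : #M = 𝔠 := le_antisymm h3 h4
  have hcF : CharZero F := charZero_of_injective_algebraMap (MvPolynomial.C_injective ℝ L)
  have hcQ : CharZero Q := charZero_of_injective_algebraMap (IsFractionRing.injective F Q)
  have hcM : CharZero M := charZero_of_injective_algebraMap (algebraMap Q M).injective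
  obtain ⟨ψ⟩ : Nonempty (M ≃+* ℂ) := IsAlgClosed.ringEquiv_of_equiv_of_charZero
    (by rw [h5]; exact aleph0_lt_continuum) (Cardinal.eq.1 (by rw [h5, Cardinal.mk_complex]))
  exact ⟨(ψ : M →+* ℂ).comp ((algebraMap Q M).comp ((algebraMap F Q).comp
    (algebraMap L F)))⟩

/-- The field `k` is generated by finitely many elements. -/
def FG (k : Type) [Field k] : Prop := ∃ s : Finset k, Subfield.closure (s : Set k) = ⊤

theorem FG.countable {k : Type} [Field k] (h : FG k) : Countable k := by
  obtain ⟨s, hs⟩ := h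
  rw [← Cardinal.mk_le_aleph0_iff]
  have h1 := Subfield.cardinalMk_closure_le_max (s : Set k)
  have h2 : #(Subfield.closure (s : Set k)) ≤ ℵ₀ :=
    h1.trans (max_le Cardinal.mk_le_aleph0 le_rfl)
  rw [hs] at h2
  have h3 : #(⊤ : Subfield k) = #k := Cardinal.mk_congr (Subfield.topEquiv (K := k)).toEquiv
  rwa [h3] at h2

/-- **Finitely generated fields of characteristic zero in `ℚ_p`.** -/
theorem embed_infinite {k : Type} [Field k] [CharZero k] (h : FG k) :
    {p : ℕ | ∃ _ : Fact p.Prime, Nonempty (k →+* ℚ_[p])}.Infinite := by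
  classical
  haveI := h.countable
  obtain ⟨φ⟩ := exists_embed k
  obtain ⟨s, hs⟩ := h
  -- the image
  have hmap : ∀ x : k, φ x ∈ Subfield.closure ((s.image φ : Finset ℂ) : Set ℂ) := by
    intro x
    have h1 : (Subfield.closure (s : Set k)).map φ =
        Subfield.closure ((s.image φ : Finset ℂ) : Set ℂ) := by
      rw [RingHom.map_field_closure, Finset.coe_image]
    rw [← h1, Subfield.mem_map]
    exact ⟨x, by rw [hs]; trivial, rfl⟩
  intro hfin
  obtain ⟨K, i1, i2, S, hS⟩ := exists_padic_embedding (s.image φ)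
  obtain ⟨d₀, hd₀⟩ := main_set (s.image φ) (hfin.toFinset.card + 1)
  obtain ⟨P, hP, hsum⟩ := hd₀ d₀ le_rfl
  have hsub : P ⊆ hfin.toFinset := by
    intro p hp
    obtain ⟨-, -, h3, τ, hτ⟩ := hP p hp
    rw [Set.Finite.mem_toFinset]
    refine ⟨h3, ?_⟩
    have h4 : ∀ x : k, ∃ y : ℚ_[p], τ (φ x) = algebraMap ℚ_[p] (PadicAlgCl p) y :=
      fun x => hτ _ (hmap x)
    choose g hg using h4
    have hinj := (algebraMap ℚ_[p] (PadicAlgCl p)).injective
    exact ⟨{
      toFun := g
      map_one' := by apply hinj; rw [← hg]; simp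
      map_mul' := fun x y => by apply hinj; rw [map_mul, ← hg, ← hg, ← hg]; simp
      map_zero' := by apply hinj; rw [← hg]; simp
      map_add' := fun x y => by apply hinj; rw [map_add, ← hg, ← hg, ← hg]; simp }⟩
  have h5 : ∑ p ∈ P, 1 / (p : ℝ) ≤ P.card := by
    rw [← nsmul_one, ← Finset.sum_const]
    apply Finset.sum_le_sum
    intro p hp
    obtain ⟨-, -, h3, -⟩ := hP p hp
    have h1 : (1 : ℝ) ≤ p := by exact_mod_cast h3.out.one_le
    rw [div_le_one (by linarith)]
    exact h1
  have h6 : (P.card : ℝ) ≤ hfin.toFinset.card := by exact_mod_cast Finset.card_le_card hsub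
  linarith

end Pool.Agent.Q126.TD
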