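import Pool.Agent.Q126.TD.Cnt
import Pool.Agent.Q126.TD.Dens
import Pool.Agent.Q126.TD.Emb

/-!
Almost all members of families of integer polynomials are irreducible, and not norms, over finitely
generated fields.
-/

set_option autoImplicit false

open Polynomial Pool.Agent.TH115.GD

namespace Pool.Agent.Q126.TD

section

variable {κ : Type} [Fintype κ]

/-- The map `q` from vectors to vectors modulo `p` has fibres of the same size. -/
def Uniform (p : ℕ) {m : ℕ} (q : (κ → ZMod p) → (Fin (m + 1) → ZMod p)) : Prop :=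
  ∃ (A : Type) (e : (κ → ZMod p) ≃ A × (Fin (m + 1) → ZMod p)), ∀ w, (e w).2 = q w

theorem Uniform.count {p : ℕ} [Fact p.Prime] {m : ℕ} {q : (κ → ZMod p) → (Fin (m + 1) → ZMod p)}
    (h : Uniform p q) {G : Set (Fin (m + 1) → ZMod p)} {c : ℝ}
    (hG : c * (p : ℝ) ^ (m + 1) ≤ G.ncard) :
    c * (p : ℝ) ^ Fintype.card κ ≤ ({w | q w ∈ G} : Set (κ → ZMod p)).ncard := by
  classical
  obtain ⟨A, e, he⟩ := h
  have hp0 : (0 : ℝ) < p := by exact_mod_cast (Fact.out : p.Prime).pos
  have hA : Finite A := by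
    have h1 : Finite (A × (Fin (m + 1) → ZMod p)) := Finite.of_equiv _ e
    exact Finite.of_surjective (Prod.fst : A × (Fin (m + 1) → ZMod p) → A) Prod.fst_surjective
  have h1 : Nat.card A * p ^ (m + 1) = p ^ Fintype.card κ := by
    have h2 := Nat.card_congr e
    rw [Nat.card_prod, Nat.card_eq_fintype_card (α := κ → ZMod p), Fintype.card_fun, ZMod.card,
      Nat.card_eq_fintype_card (α := Fin (m + 1) → ZMod p), Fintype.card_fun, ZMod.card,
      Fintype.card_fin] at h2
    exact h2.symm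
  have h2 : ({w | q w ∈ G} : Set (κ → ZMod p)).ncard = Nat.card A * G.ncard := by
    have h3 : e '' {w | q w ∈ G} = Set.univ ×ˢ G := by
      ext x
      constructor
      · rintro ⟨w, hw, rfl⟩
        refine ⟨trivial, ?_⟩
        rw [he]
        exact hw
      · rintro ⟨-, hx⟩
        refine ⟨e.symm x, ?_, e.apply_symm_apply x⟩
        show q (e.symm x) ∈ G
        rw [← he, e.apply_symm_apply]
        exact hx
    rw [← Set.ncard_image_of_injective _ e.injective, h3, Set.ncard_prod, Set.ncard_univ]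
  rw [h2]
  have h3 : (Nat.card A : ℝ) * (p : ℝ) ^ (m + 1) = (p : ℝ) ^ Fintype.card κ := by exact_mod_cast h1
  push_cast
  rw [← h3]
  have h4 := mul_le_mul_of_nonneg_left hG (Nat.cast_nonneg (α := ℝ) (Nat.card A))
  linarith

variable {k : Type} [Field k] [CharZero k]

/-- The primes which are used. -/
theorem primes_infinite (hk : FG k) :
    {p : ℕ | 11 ≤ p ∧ ∃ _ : Fact p.Prime, Nonempty (k →+* ℚ_[p])}.Infinite := by
  have h1 := (embed_infinite hk).sdiff (Set.finite_lt_nat 11)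
  apply h1.mono
  rintro p ⟨h2, h3⟩
  exact ⟨not_lt.1 h3, h2⟩

theorem map_toZMod {p : ℕ} [Fact p.Prime] (f : ℤ[X]) :
    (f.map (Int.castRingHom ℤ_[p])).map (PadicInt.toZMod (p := p)) =
      f.map (Int.castRingHom (ZMod p)) := by
  rw [Polynomial.map_map]
  congr 1
  exact RingHom.ext_int _ _

theorem map_embed {p : ℕ} [Fact p.Prime] (φ : k →+* ℚ_[p]) (f : ℤ[X]) :
    (f.map (Int.castRingHom ℤ_[p])).map (algebraMap ℤ_[p] ℚ_[p]) =
      (f.map (Int.castRingHom k)).map φ := by
  rw [Polynomial.map_map, Polynomial.map_map]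
  congr 1
  exact RingHom.ext_int _ _

omit [CharZero k] in
theorem degree_of_red {p : ℕ} [Fact p.Prime] {f : ℤ[X]} {m : ℕ} (hf : f.natDegree ≤ m)
    (hm : (f.map (Int.castRingHom (ZMod p))).natDegree = m) :
    (f.map (Int.castRingHom ℤ_[p])).natDegree = m := by
  apply le_antisymm
  · exact natDegree_map_le.trans hf
  · rw [← hm, ← map_toZMod]
    exact natDegree_map_le

/-- The condition on a family: its members are polynomials of degree at most `m`, and modulo almost
all primes the coefficients are equidistributed. -/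
def Equidistributed (m : ℕ) (Q : (κ → ℤ) → ℤ[X]) : Prop :=
  (∀ v, (Q v).natDegree ≤ m) ∧ ∀ p : ℕ, p.Prime → 11 ≤ p →
    ∃ q : (κ → ZMod p) → (Fin (m + 1) → ZMod p), Uniform p q ∧
      ∀ v : κ → ℤ, (Q v).map (Int.castRingHom (ZMod p)) = pol (q fun i => ((v i : ℤ) : ZMod p))

/-- **Almost all members are irreducible.** -/
theorem irr_full (hk : FG k) {m : ℕ} (hm : 0 < m) {Q : (κ → ℤ) → ℤ[X]}
    (hQ : Equidistributed m Q) :
    Full {v | Irreducible ((Q v).map (Int.castRingHom k)) ∧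
      ((Q v).map (Int.castRingHom k)).natDegree = m} := by
  refine full_of_primes _ (1 / (24 * m : ℝ)) (by positivity) ?_
  apply (primes_infinite hk).mono
  rintro p ⟨hp, hpp, ⟨φ⟩⟩
  obtain ⟨q, hq, hred⟩ := hQ.2 p hpp.out hp
  refine ⟨hpp.out, _, hq.count (count1 hp hm), ?_⟩
  intro v hv
  obtain ⟨h1, h2⟩ := hv
  change (pol (q fun i => ((v i : ℤ) : ZMod p))).natDegree = m at h1
  change Irreducible (pol (q fun i => ((v i : ℤ) : ZMod p))) at h2
  rw [← hred] at h1 h2
  have h3 := degree_of_red (hQ.1 v) h1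
  have h4 := irr_of_red (f := (Q v).map (Int.castRingHom ℤ_[p])) (by rw [map_toZMod, h1, h3])
    (by rw [map_toZMod]; exact h2)
  rw [map_embed φ] at h4
  refine ⟨irreducible_of_map φ h4, ?_⟩
  rw [← natDegree_map φ, ← map_embed φ,
    natDegree_map_eq_of_injective (IsFractionRing.injective ℤ_[p] ℚ_[p]), h3]

/-- **Almost all members are not norms.** -/
theorem notNorm_full (hk : FG k) {m : ℕ} (hm : 2 ≤ m) {Q : (κ → ℤ) → ℤ[X]}
    (hQ : Equidistributed (m + 1) Q) :
    Full {v | NotNorm ((Q v).map (Int.castRingHom k))} := by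
  refine full_of_primes _ (1 / (24 * m : ℝ)) (by positivity) ?_
  apply (primes_infinite hk).mono
  rintro p ⟨hp, hpp, ⟨φ⟩⟩
  obtain ⟨q, hq, hred⟩ := hQ.2 p hpp.out hp
  refine ⟨hpp.out, _, hq.count (count2 hp hm), ?_⟩
  intro v hv
  obtain ⟨α, g, h1, h2, h3⟩ := hv
  rw [← hred] at h3
  have hd : ((Q v).map (Int.castRingHom (ZMod p))).natDegree = m + 1 := by
    rw [h3, natDegree_mul (X_sub_C_ne_zero α) h2.ne_zero, natDegree_X_sub_C, h1]
    omega
  have h4 := degree_of_red (hQ.1 v) hd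
  obtain ⟨z, G, h5, h6, h7⟩ := factor_of_red (f := (Q v).map (Int.castRingHom ℤ_[p])) h2
    (by rw [h1]; exact hm) (by rw [map_toZMod]; exact h3) (by rw [h4, h1])
  rw [map_embed φ] at h7
  exact notNorm_of_factor φ h5 (by rw [h6, h1]; exact hm) h7

end

section inst

variable {n m : ℕ}

theorem equi_inr : Equidistributed m (fun v : Fin (n + 1) ⊕ Fin (m + 1) → ℤ =>
    pol fun i => v (Sum.inr i)) := by
  refine ⟨fun v => natDegree_pol_le _, fun p hp _ => ?_⟩
  refine ⟨fun w i => w (Sum.inr i), ⟨Fin (n + 1) → ZMod p, Equiv.sumArrowEquivProdArrow _ _ _,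
    fun w => rfl⟩, fun v => ?_⟩
  rw [map_pol]
  rfl

/-- The translation of the vectors in a fibre. -/
def shear (p : ℕ) (hp : (4 : ZMod p) * (4 : ZMod p)⁻¹ = 1)
    (s : (Fin (n + 1) → ZMod p) → (Fin (m + 1) → ZMod p)) :
    (Fin (n + 1) → ZMod p) × (Fin (m + 1) → ZMod p) ≃
      (Fin (n + 1) → ZMod p) × (Fin (m + 1) → ZMod p) where
  toFun x := (x.1, fun i => s x.1 i - 4 * x.2 i)
  invFun x := (x.1, fun i => (4 : ZMod p)⁻¹ * (s x.1 i - x.2 i))
  left_inv x := by
    refine Prod.ext rfl ?_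
    funext i
    show (4 : ZMod p)⁻¹ * (s x.1 i - (s x.1 i - 4 * x.2 i)) = x.2 i
    linear_combination (x.2 i) * hp
  right_inv x := by
    refine Prod.ext rfl ?_
    funext i
    show s x.1 i - 4 * ((4 : ZMod p)⁻¹ * (s x.1 i - x.2 i)) = x.2 i
    linear_combination (-(s x.1 i - x.2 i)) * hp

theorem equi_disc (hnm : 2 * n ≤ m) : Equidistributed m (fun v : Fin (n + 1) ⊕ Fin (m + 1) → ℤ =>
    (pol fun i => v (Sum.inl i)) ^ 2 - 4 * pol fun i => v (Sum.inr i)) := by
  have hdeg : ∀ (R : Type) [CommRing R] (u : Fin (n + 1) → R), ((pol u) ^ 2).natDegree ≤ m := by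
    intro R _ u
    refine natDegree_pow_le.trans ?_
    have := natDegree_pol_le u
    omega
  refine ⟨fun v => ?_, fun p hp h11 => ?_⟩
  · refine (natDegree_sub_le _ _).trans (max_le (hdeg ℤ _) ?_)
    have h4 : (4 : ℤ[X]) = C 4 := rfl
    rw [h4]
    exact (natDegree_C_mul_le _ _).trans (natDegree_pol_le _)
  · haveI : Fact p.Prime := ⟨hp⟩
    have h4 : (4 : ZMod p) ≠ 0 := by
      intro h
      have h' : ((4 : ℕ) : ZMod p) = 0 := by exact_mod_cast h
      rw [ZMod.natCast_eq_zero_iff] at h'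
      have := Nat.le_of_dvd (by norm_num) h'
      omega
    let s : (Fin (n + 1) → ZMod p) → (Fin (m + 1) → ZMod p) := fun u i => ((pol u) ^ 2).coeff i
    refine ⟨fun w i => s (fun j => w (Sum.inl j)) i - 4 * w (Sum.inr i),
      ⟨Fin (n + 1) → ZMod p, (Equiv.sumArrowEquivProdArrow _ _ _).trans
        (shear p (mul_inv_cancel₀ h4) s), fun w => rfl⟩, fun v => ?_⟩
    rw [Polynomial.map_sub, Polynomial.map_mul, Polynomial.map_pow, map_pol, map_pol]
    have h5 : (pol fun i : Fin (n + 1) => (Int.castRingHom (ZMod p)) (v (Sum.inl i))) ^ 2 =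
        pol (n := m) (s fun j => ((v (Sum.inl j) : ℤ) : ZMod p)) :=
      (pol_coeff (hdeg (ZMod p) _)).symm
    rw [h5]
    unfold pol
    have h6 : (4 : ℤ[X]).map (Int.castRingHom (ZMod p)) = C 4 := by
      rw [Polynomial.map_ofNat]
      rfl
    rw [h6, Finset.mul_sum, ← Finset.sum_sub_distrib]
    refine Finset.sum_congr rfl fun i _ => ?_
    rw [C_sub, C_mul]
    show _ - C 4 * (C ((v (Sum.inr i) : ℤ) : ZMod p) * X ^ (i : ℕ)) = _
    ring

end inst

end Pool.Agent.Q126.TD
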