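import Pool.Agent.Q126.TD.Full

/-!
Families with coefficients in the field; number fields.
-/

set_option autoImplicit false

open Polynomial Pool.Agent.TH115.GD

namespace Pool.Agent.Q126.TD

section

variable {κ : Type} [Fintype κ] {k : Type} [Field k] [CharZero k]

/-- The members of the family `Q` have integral coefficients at the embedding `φ` of `k` in `ℚ_p`, and
the reductions of the vectors of coefficients are equidistributed. -/
def EquiAt {p : ℕ} [Fact p.Prime] (φ : k →+* ℚ_[p]) (m : ℕ) (Q : (κ → ℤ) → k[X]) : Prop :=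
  ∃ q : (κ → ZMod p) → (Fin (m + 1) → ZMod p), Uniform p q ∧
    ∀ v : κ → ℤ, ∃ F : ℤ_[p][X], F.natDegree ≤ m ∧
      F.map (algebraMap ℤ_[p] ℚ_[p]) = (Q v).map φ ∧
      F.map (PadicInt.toZMod (p := p)) = pol (q fun i => ((v i : ℤ) : ZMod p))

omit [CharZero k] in
/-- **Almost all members are irreducible.** -/
theorem irr_full_gen {m : ℕ} (hm : 0 < m) {Q : (κ → ℤ) → k[X]}
    (h : {p : ℕ | 11 ≤ p ∧ ∃ (_ : Fact p.Prime) (φ : k →+* ℚ_[p]), EquiAt φ m Q}.Infinite) :
    Full {v | Irreducible (Q v) ∧ (Q v).natDegree = m} := by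
  refine full_of_primes _ (1 / (24 * m : ℝ)) (by positivity) ?_
  apply h.mono
  rintro p ⟨hp, hpp, φ, q, hq, hF⟩
  refine ⟨hpp.out, _, hq.count (count1 hp hm), ?_⟩
  intro v hv
  obtain ⟨h1, h2⟩ := hv
  obtain ⟨F, F1, F2, F3⟩ := hF v
  change (pol (q fun i => ((v i : ℤ) : ZMod p))).natDegree = m at h1
  change Irreducible (pol (q fun i => ((v i : ℤ) : ZMod p))) at h2
  rw [← F3] at h1 h2
  have h3 : F.natDegree = m := by
    apply le_antisymm F1
    rw [← h1]
    exact natDegree_map_le
  have h4 := irr_of_red (f := F) (by rw [h1, h3]) h2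
  rw [F2] at h4
  refine ⟨irreducible_of_map φ h4, ?_⟩
  rw [← natDegree_map φ, ← F2,
    natDegree_map_eq_of_injective (IsFractionRing.injective ℤ_[p] ℚ_[p]), h3]

end

section numberField

variable {k : Type} [Field k] [NumberField k]

theorem fg_numberField : FG k := by
  classical
  let b := Module.finBasis ℚ k
  refine ⟨Finset.univ.image b, ?_⟩
  rw [eq_top_iff]
  intro x _
  rw [← b.sum_repr x]
  apply Subfield.sum_mem
  intro i _
  rw [Algebra.smul_def]
  apply Subfield.mul_mem
  · rw [eq_ratCast]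
    exact SubfieldClass.ratCast_mem _ _
  · apply Subfield.subset_closure
    simp

/-- The elements of a number field are integral at almost all primes. -/
theorem integral_at (c : k) : ∃ N : ℕ, ∀ (p : ℕ) [Fact p.Prime] (φ : k →+* ℚ_[p]), N ≤ p →
    ∃ c' : ℤ_[p], algebraMap ℤ_[p] ℚ_[p] c' = φ c := by
  have halg : IsAlgebraic ℤ c := by
    have h1 : IsAlgebraic ℚ c := Algebra.IsAlgebraic.isAlgebraic c
    exact (IsFractionRing.isAlgebraic_iff ℤ ℚ k).2 h1
  obtain ⟨y, hy, hint⟩ := halg.exists_integral_multiple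
  refine ⟨y.natAbs + 1, fun p _ φ hp => ?_⟩
  -- `y` is a unit
  have hyu : PadicInt.toZMod (y : ℤ_[p]) ≠ 0 := by
    rw [map_intCast]
    intro h
    rw [ZMod.intCast_zmod_eq_zero_iff_dvd] at h
    have := Nat.le_of_dvd (Int.natAbs_pos.2 hy) (Int.natCast_dvd.1 h)
    omega
  obtain ⟨u, hu⟩ := isUnit_of_toZMod hyu
  have h2 : IsIntegral ℤ (φ (y • c)) := hint.map (φ.toIntAlgHom)
  have h3 : IsIntegral ℤ_[p] (φ (y • c)) := h2.tower_top
  obtain ⟨z, hz⟩ := IsIntegrallyClosed.isIntegral_iff.1 h3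
  refine ⟨(↑u⁻¹ : ℤ_[p]) * z, ?_⟩
  have h4 : (y : ℤ_[p]) * (↑u⁻¹ : ℤ_[p]) = 1 := by
    rw [← hu]
    exact u.mul_inv
  have h5 := congrArg (algebraMap ℤ_[p] ℚ_[p]) h4
  rw [map_mul, map_one, map_intCast] at h5
  rw [map_mul, hz, zsmul_eq_mul, map_mul, map_intCast]
  linear_combination (φ c) * h5

/-- Translates of a constant. -/
theorem equi_sub_const {n : ℕ} (c : k) : ∃ N : ℕ, ∀ (p : ℕ) [Fact p.Prime] (φ : k →+* ℚ_[p]),
    N ≤ p → EquiAt φ n (fun v : Fin (n + 1) → ℤ => (pol v).map (Int.castRingHom k) - C c) := by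
  obtain ⟨N, hN⟩ := integral_at c
  refine ⟨N, fun p _ φ hp => ?_⟩
  obtain ⟨c', hc'⟩ := hN p φ hp
  let s : Fin (n + 1) → ZMod p := fun i => if i = 0 then PadicInt.toZMod c' else 0
  have hs : pol s = C (PadicInt.toZMod c') := by
    unfold pol
    rw [Finset.sum_eq_single 0]
    · simp [s]
    · intro i _ hi
      simp [s, hi]
    · intro h
      exact absurd (Finset.mem_univ _) h
  let e : (Fin (n + 1) → ZMod p) ≃ Unit × (Fin (n + 1) → ZMod p) :=
    { toFun := fun w => ((), w - s)
      invFun := fun x => x.2 + s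
      left_inv := fun w => by simp
      right_inv := fun x => by simp }
  refine ⟨fun w => w - s, ⟨Unit, e, fun w => rfl⟩, fun v => ?_⟩
  refine ⟨(pol v).map (Int.castRingHom ℤ_[p]) - C c', ?_, ?_, ?_⟩
  · rw [natDegree_sub_C]
    exact natDegree_map_le.trans (natDegree_pol_le _)
  · rw [Polynomial.map_sub, Polynomial.map_sub, map_embed φ, map_C, map_C, hc']
  · rw [Polynomial.map_sub, map_toZMod, map_C, ← hs, map_pol]
    unfold pol
    rw [← Finset.sum_sub_distrib]
    refine Finset.sum_congr rfl fun i _ => ?_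
    show _ = C (((v i : ℤ) : ZMod p) - s i) * X ^ (i : ℕ)
    rw [C_sub, sub_mul]
    rfl

/-- **Almost all integer polynomials, translated by a constant of a number field, are irreducible.** -/
theorem irr_sub_const {n : ℕ} (hn : 0 < n) (c : k) :
    Full {v : Fin (n + 1) → ℤ | Irreducible ((pol v).map (Int.castRingHom k) - C c) ∧
      ((pol v).map (Int.castRingHom k) - C c).natDegree = n} := by
  obtain ⟨N, hN⟩ := equi_sub_const (n := n) c
  apply irr_full_gen hn
  have h1 := (primes_infinite (fg_numberField (k := k))).sdiff (Set.finite_lt_nat N)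
  apply h1.mono
  rintro p ⟨⟨h2, h3, ⟨φ⟩⟩, h4⟩
  exact ⟨h2, h3, φ, hN p φ (not_lt.1 h4)⟩

end numberField

/-- Finitely many conditions. -/
theorem Full.all {κ : Type} [Fintype κ] {ι : Type} [Finite ι] {S : ι → Set (κ → ℤ)}
    (h : ∀ i, Full (S i)) : Full (⋂ i, S i) := by
  classical
  have := Fintype.ofFinite ι
  have key : ∀ T : Finset ι, Full (⋂ i ∈ T, S i) := by
    intro T
    induction T using Finset.induction_on with
    | empty =>
      rw [full_iff]
      simp
    | insert a T _ ih =>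
      rw [Finset.set_biInter_insert]
      exact (h a).inter ih
  have h1 := key Finset.univ
  refine h1.mono ?_
  intro v hv
  simpa using hv

end Pool.Agent.Q126.TD
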