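import Pool.Agent.Q126.TD.Pol
import Pool.Agent.Q126.TD.Dens

/-!
From vectors to pairs of polynomials.
-/

set_option autoImplicit false

open Polynomial Filter Topology

namespace Pool.Agent.Q126.TD

/-- The pairs of integer polynomials of degrees at most `n`, `m` with coefficients of absolute value
at most `H`. -/
def pairs (n m H : ℕ) : Set (ℤ[X] × ℤ[X]) :=
  {x | x.1.natDegree ≤ n ∧ x.2.natDegree ≤ m ∧ ∀ i, |x.1.coeff i| ≤ H ∧ |x.2.coeff i| ≤ H}

/-- The integer polynomials of degree at most `n` with coefficients of absolute value at most `H`. -/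
def polys (n H : ℕ) : Set ℤ[X] := {f | f.natDegree ≤ n ∧ ∀ i, |f.coeff i| ≤ H}

theorem coeff_bound {n H : ℕ} {f : ℤ[X]} (hf : f.natDegree ≤ n) :
    (∀ i, |f.coeff i| ≤ (H : ℤ)) ↔ ∀ i : Fin (n + 1), |f.coeff i| ≤ (H : ℤ) := by
  constructor
  · intro h i
    exact h i
  · intro h i
    by_cases hi : i < n + 1
    · exact h ⟨i, hi⟩
    · rw [coeff_eq_zero_of_natDegree_lt (by omega), abs_zero]
      exact Int.natCast_nonneg H

theorem image_pairs (n m H : ℕ) (S : Set (ℤ[X] × ℤ[X])) :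
    (fun v : Fin (n + 1) ⊕ Fin (m + 1) → ℤ =>
      ((pol fun i => v (Sum.inl i), pol fun i => v (Sum.inr i)) : ℤ[X] × ℤ[X])) ''
      (Box _ H ∩ {v | ((pol fun i => v (Sum.inl i), pol fun i => v (Sum.inr i)) : ℤ[X] × ℤ[X]) ∈ S}) =
      pairs n m H ∩ S := by
  ext x
  constructor
  · rintro ⟨v, ⟨hv, hS⟩, rfl⟩
    refine ⟨⟨natDegree_pol_le _, natDegree_pol_le _, fun i => ⟨?_, ?_⟩⟩, hS⟩
    · refine (coeff_bound (natDegree_pol_le _)).2 (fun j => ?_) i
      rw [coeff_pol]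
      exact hv _
    · refine (coeff_bound (natDegree_pol_le _)).2 (fun j => ?_) i
      rw [coeff_pol]
      exact hv _
  · rintro ⟨⟨h1, h2, h3⟩, hS⟩
    have e : ((pol fun i : Fin (n + 1) => x.1.coeff i, pol fun i : Fin (m + 1) => x.2.coeff i) :
        ℤ[X] × ℤ[X]) = x := Prod.ext (pol_coeff h1) (pol_coeff h2)
    refine ⟨Sum.elim (fun i => x.1.coeff i) (fun i => x.2.coeff i), ⟨?_, ?_⟩, e⟩
    · rintro (i | i)
      · exact (h3 i).1
      · exact (h3 i).2
    · show ((pol fun i : Fin (n + 1) => x.1.coeff i, pol fun i : Fin (m + 1) => x.2.coeff i) :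
        ℤ[X] × ℤ[X]) ∈ S
      rw [e]
      exact hS

theorem inj_pairs (n m : ℕ) : Function.Injective (fun v : Fin (n + 1) ⊕ Fin (m + 1) → ℤ =>
      ((pol fun i => v (Sum.inl i), pol fun i => v (Sum.inr i)) : ℤ[X] × ℤ[X])) := by
  intro v w h
  have h1 := pol_injective (congrArg Prod.fst h)
  have h2 := pol_injective (congrArg Prod.snd h)
  funext i
  rcases i with i | i
  · exact congrFun h1 i
  · exact congrFun h2 i

theorem ncard_pairs (n m H : ℕ) (S : Set (ℤ[X] × ℤ[X])) : (pairs n m H ∩ S).ncard =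
    (Box _ H ∩ {v : Fin (n + 1) ⊕ Fin (m + 1) → ℤ |
      ((pol fun i => v (Sum.inl i), pol fun i => v (Sum.inr i)) : ℤ[X] × ℤ[X]) ∈ S}).ncard := by
  rw [← image_pairs, Set.ncard_image_of_injective _ (inj_pairs n m)]

/-- Proportions of pairs of polynomials. -/
theorem tendsto_pairs {n m : ℕ} {S : Set (ℤ[X] × ℤ[X])}
    (h : Full {v : Fin (n + 1) ⊕ Fin (m + 1) → ℤ |
      ((pol fun i => v (Sum.inl i), pol fun i => v (Sum.inr i)) : ℤ[X] × ℤ[X]) ∈ S}) :
    Tendsto (fun H : ℕ => ((pairs n m H ∩ S).ncard : ℝ) / (pairs n m H).ncard) atTop (𝓝 1) := by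
  refine h.congr fun H => ?_
  rw [ncard_pairs]
  congr 1
  have h1 := ncard_pairs n m H Set.univ
  rw [Set.inter_univ] at h1
  rw [h1]
  have h2 : {v : Fin (n + 1) ⊕ Fin (m + 1) → ℤ |
      ((pol fun i => v (Sum.inl i), pol fun i => v (Sum.inr i)) : ℤ[X] × ℤ[X]) ∈
        (Set.univ : Set (ℤ[X] × ℤ[X]))} = Set.univ := by
    ext v
    simp
  rw [h2, Set.inter_univ, box_ncard]
  push_cast
  rfl

theorem image_polys (n H : ℕ) (S : Set ℤ[X]) :
    (pol : (Fin (n + 1) → ℤ) → ℤ[X]) '' (Box _ H ∩ {v | pol v ∈ S}) = polys n H ∩ S := by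
  ext x
  constructor
  · rintro ⟨v, ⟨hv, hS⟩, rfl⟩
    refine ⟨⟨natDegree_pol_le _, ?_⟩, hS⟩
    refine (coeff_bound (natDegree_pol_le _)).2 (fun j => ?_)
    rw [coeff_pol]
    exact hv _
  · rintro ⟨⟨h1, h3⟩, hS⟩
    have e := pol_coeff h1
    refine ⟨fun i => x.coeff i, ⟨fun i => h3 i, ?_⟩, e⟩
    show pol (fun i : Fin (n + 1) => x.coeff i) ∈ S
    rw [e]
    exact hS

theorem ncard_polys (n H : ℕ) (S : Set ℤ[X]) : (polys n H ∩ S).ncard =
    (Box _ H ∩ {v : Fin (n + 1) → ℤ | pol v ∈ S}).ncard := by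
  rw [← image_polys, Set.ncard_image_of_injective _ pol_injective]

/-- Proportions of polynomials. -/
theorem tendsto_polys {n : ℕ} {S : Set ℤ[X]} (h : Full {v : Fin (n + 1) → ℤ | pol v ∈ S}) :
    Tendsto (fun H : ℕ => ((polys n H ∩ S).ncard : ℝ) / (polys n H).ncard) atTop (𝓝 1) := by
  refine h.congr fun H => ?_
  rw [ncard_polys]
  congr 1
  have h1 := ncard_polys n H Set.univ
  rw [Set.inter_univ] at h1
  rw [h1]
  have h2 : {v : Fin (n + 1) → ℤ | pol v ∈ (Set.univ : Set ℤ[X])} = Set.univ := by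
    ext v
    simp
  rw [h2, Set.inter_univ, box_ncard]
  push_cast
  rfl

end Pool.Agent.Q126.TD
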