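import Pool.Agent.Q126.TD.Full
import Pool.Agent.TH115.SD.RootM

/-!
Almost all pairs of integer polynomials: no constant multiple of the second one is a square modulo the
first one.
-/

set_option autoImplicit false

open Polynomial Pool.Agent.TH115.GD

namespace Pool.Agent.Q126.TD

section count

variable {p : ℕ} [Fact p.Prime]

/-- The number of the nonsquares. -/
theorem card_nonsq (hp : 3 ≤ p) : (p : ℝ) / 4 ≤ ({s : ZMod p | ¬ IsSquare s}.ncard : ℝ) := by
  classical
  have h2 : ringChar (ZMod p) ≠ 2 := by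
    rw [ZMod.ringChar_zmod_n]
    omega
  obtain ⟨n₀, hn⟩ := FiniteField.exists_nonsquare h2
  have hn0 : n₀ ≠ 0 := by
    rintro rfl
    exact hn ⟨0, by ring⟩
  set A := {s : ZMod p | ¬ IsSquare s} with hA
  set B := {s : ZMod p | IsSquare s} with hB
  have h3 : (B \ {0}).ncard ≤ A.ncard := by
    refine Set.ncard_le_ncard_of_injOn (fun s => n₀ * s) ?_ ?_ (Set.toFinite _)
    · rintro s ⟨⟨r, rfl⟩, hs0⟩ ⟨q, hq⟩
      have hr : r ≠ 0 := by
        rintro rfl
        exact hs0 (by simp)
      apply hn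
      refine ⟨q / r, ?_⟩
      field_simp
      linear_combination hq
    · intro s _ t _ h
      exact mul_left_cancel₀ hn0 h
  have h4 : B.ncard + A.ncard = p := by
    have h5 := Set.ncard_add_ncard_compl B
    rw [Nat.card_eq_fintype_card, ZMod.card] at h5
    exact h5
  have h5 : B.ncard ≤ (B \ {0}).ncard + 1 := by
    have := Set.ncard_le_ncard_sdiff_add_ncard B {0}
    rwa [Set.ncard_singleton] at this
  have h6 : p ≤ 2 * A.ncard + 1 := by omega
  have h7 : (p : ℝ) ≤ 2 * A.ncard + 1 := by exact_mod_cast h6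
  have h8 : (3 : ℝ) ≤ p := by exact_mod_cast hp
  linarith

/-- The pairs of polynomials for the count. -/
def SqGood (p N : ℕ) : Set (Fin (N + 1) ⊕ Fin (N + 1) → ZMod p) :=
  {w | ∃ (α β : ZMod p) (g : (ZMod p)[X]), α ≠ β ∧ Irreducible g ∧ 2 ≤ g.natDegree ∧
    (pol fun i => w (Sum.inl i)) = (X - C α) * ((X - C β) * g) ∧
    ¬ IsSquare ((pol fun i => w (Sum.inr i)).eval α * (pol fun i => w (Sum.inr i)).eval β)}

theorem count3 (hp : 11 ≤ p) {N : ℕ} (hN : 2 ≤ N) :
    1 / (768 * N : ℝ) * (p : ℝ) ^ Fintype.card (Fin (N + 2 + 1) ⊕ Fin (N + 2 + 1)) ≤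
      ((SqGood p (N + 2)).ncard : ℝ) := by
  classical
  set A := {v : Fin (N + 1) → ZMod p | (pol v).natDegree = N ∧ Irreducible (pol v)} with hA
  set P := {x : ZMod p × ZMod p | x.1.val < x.2.val} with hP
  set U := {s : ZMod p | ¬ IsSquare s} with hU
  set V := ({0}ᶜ : Set (ZMod p)) with hV
  have hpR : (11 : ℝ) ≤ p := by exact_mod_cast hp
  have hA1 := count1 hp (N := N) (by omega)
  have hU1 := card_nonsq (p := p) (by omega)
  have hV1 : V.ncard + 1 = p := by
    have h5 := Set.ncard_add_ncard_compl ({0} : Set (ZMod p))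
    rw [Nat.card_eq_fintype_card, ZMod.card, Set.ncard_singleton] at h5
    rw [hV]
    omega
  have hP1 : (p : ℝ) ^ 2 / 4 ≤ P.ncard := by
    have h1 : P.ncard = ({x : ZMod p × ZMod p | x.2.val < x.1.val}).ncard := by
      have h2 : Prod.swap '' P = {x : ZMod p × ZMod p | x.2.val < x.1.val} := by
        ext x
        constructor
        · rintro ⟨y, hy, rfl⟩
          exact hy
        · intro hx
          exact ⟨x.swap, hx, x.swap_swap⟩
      rw [← h2, Set.ncard_image_of_injective _ Prod.swap_injective]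
    have h3 : ({x : ZMod p × ZMod p | x.1 = x.2}).ncard = p := by
      have h4 : (fun s : ZMod p => (s, s)) '' Set.univ = {x : ZMod p × ZMod p | x.1 = x.2} := by
        ext x
        constructor
        · rintro ⟨y, -, rfl⟩
          rfl
        · intro hx
          exact ⟨x.1, trivial, Prod.ext rfl hx⟩
      rw [← h4, Set.ncard_image_of_injective _ (fun a b h => congrArg Prod.fst h), Set.ncard_univ,
        Nat.card_eq_fintype_card, ZMod.card]
    have h5 : (Set.univ : Set (ZMod p × ZMod p)) ⊆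
        (P ∪ {x : ZMod p × ZMod p | x.2.val < x.1.val}) ∪ {x : ZMod p × ZMod p | x.1 = x.2} := by
      intro x _
      rcases lt_trichotomy x.1.val x.2.val with h | h | h
      · exact Or.inl (Or.inl h)
      · exact Or.inr (ZMod.val_injective p h)
      · exact Or.inl (Or.inr h)
    have h6 := (Set.ncard_le_ncard h5 (Set.toFinite _)).trans ((Set.ncard_union_le _ _).trans
      (Nat.add_le_add_right (Set.ncard_union_le _ _) _))
    rw [← h1, h3, Set.ncard_univ, Nat.card_eq_fintype_card, Fintype.card_prod, ZMod.card] at h6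
    have h7 : (p : ℝ) * p ≤ P.ncard + P.ncard + p := by exact_mod_cast h6
    nlinarith
  have h1 : P.ncard * (A.ncard * ((V.ncard * U.ncard) * p ^ (N + 1))) ≤
      (SqGood p (N + 2)).ncard := by
    have h9 : (P ×ˢ (A ×ˢ ((V ×ˢ U) ×ˢ (Set.univ : Set (Fin (N + 1) → ZMod p))))).ncard =
        P.ncard * (A.ncard * ((V.ncard * U.ncard) * p ^ (N + 1))) := by
      rw [Set.ncard_prod, Set.ncard_prod, Set.ncard_prod, Set.ncard_prod, Set.ncard_univ,
        Nat.card_eq_fintype_card, Fintype.card_fun, ZMod.card, Fintype.card_fin]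
    rw [← h9]
    let fa : (ZMod p × ZMod p) → (Fin (N + 1) → ZMod p) → (ZMod p)[X] := fun x v =>
      (X - C x.1) * ((X - C x.2) * pol v)
    let fb : (ZMod p × ZMod p) → (ZMod p × ZMod p) → (Fin (N + 1) → ZMod p) → (ZMod p)[X] :=
      fun x y q => (C (y.1 / (x.1 - x.2)) * (X - C x.2) +
        C (y.2 / y.1 / (x.2 - x.1)) * (X - C x.1)) + (X - C x.1) * ((X - C x.2) * pol q)
    have dega : ∀ x v, (fa x v).natDegree ≤ N + 2 := by
      intro x v
      refine natDegree_mul_le.trans ?_
      rw [natDegree_X_sub_C]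
      have h2 : ((X - C x.2) * pol v).natDegree ≤ 1 + N := by
        refine natDegree_mul_le.trans ?_
        rw [natDegree_X_sub_C]
        have := natDegree_pol_le v
        omega
      omega
    have degb : ∀ x y q, (fb x y q).natDegree ≤ N + 2 := by
      intro x y q
      refine (natDegree_add_le _ _).trans (max_le ?_ (dega x q))
      refine (natDegree_add_le _ _).trans (max_le ?_ ?_)
      · refine (natDegree_C_mul_le _ _).trans ?_
        rw [natDegree_X_sub_C]; omega
      · refine (natDegree_C_mul_le _ _).trans ?_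
        rw [natDegree_X_sub_C]; omega
    have eb1 : ∀ x y q, x.1 ≠ x.2 → (fb x y q).eval x.1 = y.1 := by
      intro x y q hx
      have hx' : x.1 - x.2 ≠ 0 := sub_ne_zero.2 hx
      show eval x.1 _ = _
      simp only [fb, eval_add, eval_mul, eval_sub, eval_X, eval_C, sub_self, mul_zero, zero_mul,
        add_zero]
      field_simp
    have eb2 : ∀ x y q, x.1 ≠ x.2 → (fb x y q).eval x.2 = y.2 / y.1 := by
      intro x y q hx
      have hx' : x.2 - x.1 ≠ 0 := sub_ne_zero.2 (Ne.symm hx)
      show eval x.2 _ = _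
      simp only [fb, eval_add, eval_mul, eval_sub, eval_X, eval_C, sub_self, mul_zero, zero_mul,
        add_zero, zero_add]
      field_simp
    have ne_of : ∀ x ∈ P, x.1 ≠ x.2 := by
      intro x hx h
      have : x.1.val < x.2.val := hx
      rw [h] at this
      exact lt_irrefl _ this
    refine Set.ncard_le_ncard_of_injOn (fun z => Sum.elim
      (fun i : Fin (N + 2 + 1) => (fa z.1 z.2.1).coeff i)
      (fun i : Fin (N + 2 + 1) => (fb z.1 z.2.2.1 z.2.2.2).coeff i)) ?_ ?_ (Set.toFinite _)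
    · rintro ⟨x, v, y, q⟩ ⟨hx, ⟨hv1, hv2⟩, ⟨hy1, hy2⟩, -⟩
      have hne := ne_of x hx
      have ea : (pol fun i : Fin (N + 2 + 1) => (fa x v).coeff i) = fa x v := pol_coeff (dega x v)
      have ebb : (pol fun i : Fin (N + 2 + 1) => (fb x y q).coeff i) = fb x y q :=
        pol_coeff (degb x y q)
      refine ⟨x.1, x.2, pol v, hne, hv2, by rw [hv1]; exact hN, ea, ?_⟩
      show ¬ IsSquare ((pol fun i : Fin (N + 2 + 1) => (fb x y q).coeff i).eval x.1 *
        (pol fun i : Fin (N + 2 + 1) => (fb x y q).coeff i).eval x.2)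
      rw [ebb, eb1 x y q hne, eb2 x y q hne]
      have hy0 : y.1 ≠ 0 := hy1
      rw [mul_div_cancel₀ _ hy0]
      exact hy2
    · rintro ⟨x, v, y, q⟩ ⟨hx, ⟨hv1, hv2⟩, ⟨hy1, hy2⟩, -⟩ ⟨x', v', y', q'⟩
        ⟨hx', ⟨hv1', hv2'⟩, ⟨hy1', hy2'⟩, -⟩ h
      have ea : fa x v = fa x' v' := by
        rw [← pol_coeff (dega x v), ← pol_coeff (dega x' v')]
        congr 1
        funext i
        exact congrFun h (Sum.inl i)
      have ebb : fb x y q = fb x' y' q' := by
        rw [← pol_coeff (degb x y q), ← pol_coeff (degb x' y' q')]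
        congr 1
        funext i
        exact congrFun h (Sum.inr i)
      have hne := ne_of x hx
      have hne' := ne_of x' hx'
      have nr := not_root_of_irr hv2 (by rw [hv1]; exact hN)
      have nr' := not_root_of_irr hv2' (by rw [hv1']; exact hN)
      have r1 : ∀ s, (fa x v).eval s = 0 ↔ s = x.1 ∨ s = x.2 := by
        intro s
        show eval s ((X - C x.1) * ((X - C x.2) * pol v)) = 0 ↔ _
        rw [eval_mul, eval_mul, mul_eq_zero, mul_eq_zero]
        simp only [eval_sub, eval_X, eval_C, sub_eq_zero]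
        have := nr s
        rw [IsRoot] at this
        tauto
      have r2 : ∀ s, (fa x' v').eval s = 0 ↔ s = x'.1 ∨ s = x'.2 := by
        intro s
        show eval s ((X - C x'.1) * ((X - C x'.2) * pol v')) = 0 ↔ _
        rw [eval_mul, eval_mul, mul_eq_zero, mul_eq_zero]
        simp only [eval_sub, eval_X, eval_C, sub_eq_zero]
        have := nr' s
        rw [IsRoot] at this
        tauto
      have hxx : x = x' := by
        have a1 := (r2 x.1).1 (by rw [← ea]; exact (r1 _).2 (Or.inl rfl))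
        have a2 := (r2 x.2).1 (by rw [← ea]; exact (r1 _).2 (Or.inr rfl))
        have lt1 : x.1.val < x.2.val := hx
        have lt2 : x'.1.val < x'.2.val := hx'
        rcases a1 with a1 | a1 <;> rcases a2 with a2 | a2
        · exact absurd (a1.trans a2.symm) hne
        · exact Prod.ext a1 a2
        · rw [a1, a2] at lt1
          exact absurd lt1 (not_lt.2 lt2.le)
        · exact absurd (a1.trans a2.symm) hne
      subst hxx
      have hvv : v = v' := by
        have h3 := mul_left_cancel₀ (X_sub_C_ne_zero x.1) ea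
        have h4 := mul_left_cancel₀ (X_sub_C_ne_zero x.2) h3
        exact pol_injective h4
      subst hvv
      have y1 : y.1 = y'.1 := by rw [← eb1 x y q hne, ebb, eb1 x y' q' hne]
      have y2 : y.2 = y'.2 := by
        have h3 : y.2 / y.1 = y'.2 / y'.1 := by rw [← eb2 x y q hne, ebb, eb2 x y' q' hne]
        rw [y1] at h3
        have hy0 : y'.1 ≠ 0 := hy1'
        field_simp at h3
        exact h3
      have hyy : y = y' := Prod.ext y1 y2
      subst hyy
      have hqq : q = q' := by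
        have h3 : (X - C x.1) * ((X - C x.2) * pol q) = (X - C x.1) * ((X - C x.2) * pol q') :=
          add_left_cancel ebb
        have h4 := mul_left_cancel₀ (X_sub_C_ne_zero x.1) h3
        have h5 := mul_left_cancel₀ (X_sub_C_ne_zero x.2) h4
        exact pol_injective h5
      subst hqq
      rfl
  have h2 : (P.ncard : ℝ) * (A.ncard * ((V.ncard * U.ncard) * (p : ℝ) ^ (N + 1))) ≤
      ((SqGood p (N + 2)).ncard : ℝ) := by exact_mod_cast h1
  refine le_trans ?_ h2
  have hV2 : (p : ℝ) / 2 ≤ V.ncard := by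
    have : (V.ncard : ℝ) + 1 = p := by exact_mod_cast hV1
    linarith
  have hcard : Fintype.card (Fin (N + 2 + 1) ⊕ Fin (N + 2 + 1)) = 2 + ((N + 1) + (2 + (N + 1))) := by
    rw [Fintype.card_sum, Fintype.card_fin]
    ring
  rw [hcard]
  have hNR : (0 : ℝ) < N := by exact_mod_cast (by omega : 0 < N)
  calc 1 / (768 * N : ℝ) * (p : ℝ) ^ (2 + ((N + 1) + (2 + (N + 1))))
      = (p : ℝ) ^ 2 / 4 * ((1 / (24 * N : ℝ) * (p : ℝ) ^ (N + 1)) *
          (((p : ℝ) / 2 * ((p : ℝ) / 4)) * (p : ℝ) ^ (N + 1))) := by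
        rw [pow_add, pow_add, pow_add]
        field_simp
        ring
    _ ≤ (P.ncard : ℝ) * (A.ncard * ((V.ncard * U.ncard) * (p : ℝ) ^ (N + 1))) := by
        gcongr

end count

section padic

variable {p : ℕ} [Fact p.Prime]

/-- Simple roots modulo `p` lift. -/
theorem root_lift {f : ℤ_[p][X]} {α : ZMod p} {g : (ZMod p)[X]}
    (hf : f.map (PadicInt.toZMod (p := p)) = (X - C α) * g) (hg : g.eval α ≠ 0) :
    ∃ z : ℤ_[p], f.eval z = 0 ∧ PadicInt.toZMod z = α := by
  obtain ⟨a, ha⟩ := ZMod.ringHom_surjective (PadicInt.toZMod (p := p)) α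
  have hfa : PadicInt.toZMod (f.eval a) = 0 := by
    rw [← Polynomial.eval_map_apply, ha, hf, eval_mul, eval_sub, eval_X, eval_C, sub_self, zero_mul]
  have hda : PadicInt.toZMod (f.derivative.eval a) ≠ 0 := by
    rw [← Polynomial.eval_map_apply, ha, ← derivative_map, hf, derivative_mul, derivative_sub,
      derivative_X, derivative_C, eval_add, eval_mul, eval_mul, eval_sub, eval_sub, eval_X, eval_C,
      sub_self, zero_mul, add_zero]
    simpa using hg
  have hn1 : ‖f.eval a‖ < 1 := by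
    rw [← PadicInt.mem_nonunits]
    intro hu
    exact (hu.map (PadicInt.toZMod (p := p))).ne_zero hfa
  have hn2 : ‖f.derivative.eval a‖ = 1 := PadicInt.isUnit_iff.1 (isUnit_of_toZMod hda)
  obtain ⟨z, hz, hz2, -⟩ := hensels_lemma (F := f) (a := a) (by
    simp only [Polynomial.coe_aeval_eq_eval]
    rw [hn2, one_pow]
    exact hn1)
  rw [Polynomial.coe_aeval_eq_eval] at hz
  rw [Polynomial.coe_aeval_eq_eval, hn2] at hz2
  refine ⟨z, hz, ?_⟩
  rw [← ha, ← sub_eq_zero, ← map_sub]
  by_contra hne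
  have := isUnit_of_toZMod hne
  rw [PadicInt.isUnit_iff] at this
  linarith

/-- A unit of `ℤ_p` which is a square in `ℚ_p` is a square modulo `p`. -/
theorem sq_red {x : ℤ_[p]} (hx : IsSquare (algebraMap ℤ_[p] ℚ_[p] x)) :
    IsSquare (PadicInt.toZMod x) := by
  obtain ⟨y, hy⟩ := hx
  have hy1 : ‖y‖ ≤ 1 := by
    have h1 : ‖y‖ * ‖y‖ ≤ 1 := by
      rw [← norm_mul, ← hy]
      exact PadicInt.norm_le_one x
    nlinarith [norm_nonneg y]
  let y' : ℤ_[p] := ⟨y, hy1⟩
  have h2 : x = y' * y' := by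
    apply IsFractionRing.injective ℤ_[p] ℚ_[p]
    rw [map_mul]
    exact hy
  exact ⟨PadicInt.toZMod y', by rw [h2, map_mul]⟩

end padic

section

variable {k : Type} [Field k] [CharZero k]

/-- **Almost all pairs `(a, b)`: no constant multiple of `b` is a square modulo `a`.** -/
theorem sq_full (hk : FG k) {N : ℕ} (hN : 4 ≤ N) :
    Full {v : Fin (N + 1) ⊕ Fin (N + 1) → ℤ | ∀ c : k, c ≠ 0 →
      ¬ SqMod ((pol fun i => v (Sum.inl i)).map (Int.castRingHom k))
        (C c * (pol fun i => v (Sum.inr i)).map (Int.castRingHom k))} := by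
  obtain ⟨N, rfl⟩ : ∃ N', N = N' + 2 := ⟨N - 2, by omega⟩
  have hN' : 2 ≤ N := by omega
  refine full_of_primes _ (1 / (768 * N : ℝ)) (by positivity) ?_
  apply (primes_infinite hk).mono
  rintro p ⟨hp, hpp, ⟨φ⟩⟩
  refine ⟨hpp.out, _, count3 hp hN', ?_⟩
  rintro v ⟨α, β, g, hαβ, hg, hg2, ha, hb⟩ c hc ⟨z, hz⟩
  set a := pol fun i => v (Sum.inl i) with ha'
  set b := pol fun i => v (Sum.inr i) with hb'
  have ea : a.map (Int.castRingHom (ZMod p)) = (X - C α) * ((X - C β) * g) := by
    rw [ha', map_pol]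
    exact ha
  have eb : b.map (Int.castRingHom (ZMod p)) =
      pol fun i => ((v (Sum.inr i) : ℤ) : ZMod p) := map_pol _ _
  rw [← eb] at hb
  have nr := not_root_of_irr hg hg2
  obtain ⟨x, hx1, hx2⟩ := root_lift (p := p) (f := a.map (Int.castRingHom ℤ_[p])) (α := α)
    (g := (X - C β) * g) (by rw [map_toZMod, ea]) (by
      rw [eval_mul, eval_sub, eval_X, eval_C]
      exact mul_ne_zero (sub_ne_zero.2 hαβ) (nr α))
  obtain ⟨y, hy1, hy2⟩ := root_lift (p := p) (f := a.map (Int.castRingHom ℤ_[p])) (α := β)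
    (g := (X - C α) * g) (by rw [map_toZMod, ea]; ring) (by
      rw [eval_mul, eval_sub, eval_X, eval_C]
      exact mul_ne_zero (sub_ne_zero.2 (Ne.symm hαβ)) (nr β))
  apply hb
  -- the values over `ℚ_p`
  have root : ∀ s : ℤ_[p], (a.map (Int.castRingHom ℤ_[p])).eval s = 0 →
      ((z.map φ).eval (algebraMap ℤ_[p] ℚ_[p] s)) ^ 2 =
        φ c * algebraMap ℤ_[p] ℚ_[p] ((b.map (Int.castRingHom ℤ_[p])).eval s) := by
    intro s hs
    have h1 : ((a.map (Int.castRingHom k)).map φ).eval (algebraMap ℤ_[p] ℚ_[p] s) = 0 := by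
      rw [← map_embed φ, Polynomial.eval_map_apply, hs, map_zero]
    have h2 := eval_dvd (x := algebraMap ℤ_[p] ℚ_[p] s) (Polynomial.map_dvd φ hz)
    rw [h1, zero_dvd_iff, Polynomial.map_sub, Polynomial.map_mul, Polynomial.map_pow, map_C,
      eval_sub, eval_mul, eval_pow, eval_C, ← map_embed φ, Polynomial.eval_map_apply] at h2
    exact sub_eq_zero.1 h2
  have r1 := root x hx1
  have r2 := root y hy1
  have hφc : φ c ≠ 0 := (map_ne_zero φ).2 hc
  have h3 : IsSquare (algebraMap ℤ_[p] ℚ_[p] ((b.map (Int.castRingHom ℤ_[p])).eval x *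
      (b.map (Int.castRingHom ℤ_[p])).eval y)) := by
    refine ⟨(z.map φ).eval (algebraMap ℤ_[p] ℚ_[p] x) * (z.map φ).eval (algebraMap ℤ_[p] ℚ_[p] y) /
      φ c, ?_⟩
    rw [map_mul]
    field_simp
    linear_combination
      (-(φ c * algebraMap ℤ_[p] ℚ_[p] ((b.map (Int.castRingHom ℤ_[p])).eval y))) * r1 -
      ((z.map φ).eval (algebraMap ℤ_[p] ℚ_[p] x)) ^ 2 * r2
  have h4 := sq_red h3
  rw [map_mul, ← Polynomial.eval_map_apply, ← Polynomial.eval_map_apply, map_toZMod, hx2, hy2] at h4
  exact h4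

end

end Pool.Agent.Q126.TD
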